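import Mathlib

/-!
# Measures of weak non-compactness: definitions

For a Banach space `X` over `𝕜 = ℝ` or `ℂ`, viewed inside its bidual `X**` by the canonical
embedding, we define the De Blasi measure `omega`, and the quantities `wk` and `wck`.
All values are taken in `[0, ∞]`; on bounded sets they are finite.
-/

open Filter Topology Set
open scoped ENNReal NNReal

namespace Pool.Agent.Helper41.WNC

/-- `excess A B = sup_{a ∈ A} dist(a, B)`, with values in `[0, ∞]`. -/
noncomputable def excess {E : Type*} [PseudoEMetricSpace E] (A B : Set E) : ℝ≥0∞ :=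
  ⨆ a ∈ A, Metric.infEDist a B

section Measures

variable (𝕜 : Type*) [RCLike 𝕜] {X : Type*} [NormedAddCommGroup X] [NormedSpace 𝕜 X]

/-- `K ⊆ X` is weakly compact: it is compact for the weak topology of `X`. -/
def IsWeaklyCompact (K : Set X) : Prop :=
  IsCompact (toWeakSpace 𝕜 X '' K)

/-- The De Blasi measure of weak non-compactness:
the infimum of `excess A K` over all nonempty weakly compact `K ⊆ X`. -/
noncomputable def omega (A : Set X) : ℝ≥0∞ :=
  ⨅ (K : Set X) (_ : K.Nonempty ∧ IsWeaklyCompact 𝕜 K), excess A K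

/-- The canonical image of `X` in its bidual. -/
def canon (X : Type*) [NormedAddCommGroup X] [NormedSpace 𝕜 X] :
    Set (StrongDual 𝕜 (StrongDual 𝕜 X)) :=
  Set.range (NormedSpace.inclusionInDoubleDual 𝕜 X)

/-- The embedding of `X` in its bidual, the bidual carrying its weak-star topology
(as the dual of `StrongDual 𝕜 X`). -/
noncomputable def toBidual (x : X) : WeakDual 𝕜 (StrongDual 𝕜 X) :=
  StrongDual.toWeakDual (NormedSpace.inclusionInDoubleDual 𝕜 X x)

/-- The weak-star closure in the bidual `X**` of (the canonical image of) `A ⊆ X`. -/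
def wstarClosure (A : Set X) : Set (StrongDual 𝕜 (StrongDual 𝕜 X)) :=
  {f | StrongDual.toWeakDual f ∈ closure (toBidual 𝕜 '' A)}

/-- `wk A = sup { dist(f, X) : f in the weak-star closure of A in X** }`. -/
noncomputable def wk (A : Set X) : ℝ≥0∞ :=
  excess (wstarClosure 𝕜 A) (canon 𝕜 X)

/-- The set of weak-star cluster points in `X**` of a sequence in `X`. -/
def clust (x : ℕ → X) : Set (StrongDual 𝕜 (StrongDual 𝕜 X)) :=
  {f | MapClusterPt (StrongDual.toWeakDual f) atTop (fun n => toBidual 𝕜 (x n))}

/-- `wck A = sup { dist(clust(x_n), X) : (x_n) a sequence in A }`, where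
`dist(C, X)` is the infimum of the distances between points of `C` and points of `X`. -/
noncomputable def wck (A : Set X) : ℝ≥0∞ :=
  ⨆ (x : ℕ → X) (_ : ∀ n, x n ∈ A), ⨅ f ∈ clust 𝕜 x, Metric.infEDist f (canon 𝕜 X)

end Measures

/-- Two quantities defined on subsets of a normed space `X` are equivalent if each is bounded by
a positive constant multiple of the other on all bounded sets. -/
def MeasEquiv {X : Type*} [NormedAddCommGroup X] (μ ν : Set X → ℝ≥0∞) : Prop :=
  ∃ c C : ℝ≥0, 0 < c ∧ 0 < C ∧
    ∀ A : Set X, Bornology.IsBounded A → c * μ A ≤ ν A ∧ ν A ≤ C * μ A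

/-- `K(H)`: the Banach space of compact (bounded, linear) operators on `H`. -/
def KH (𝕜 : Type*) [RCLike 𝕜] (H : Type*) [NormedAddCommGroup H] [InnerProductSpace 𝕜 H] :=
  ↥(compactOperator (RingHom.id 𝕜) H H)

/-- `K(H)` carries the operator norm, as a subspace of the bounded operators. -/
noncomputable instance (𝕜 : Type*) [RCLike 𝕜] (H : Type*) [NormedAddCommGroup H]
    [InnerProductSpace 𝕜 H] : NormedAddCommGroup (KH 𝕜 H) :=
  inferInstanceAs (NormedAddCommGroup ↥(compactOperator (RingHom.id 𝕜) H H))

/-- `K(H)` is a normed space, as a subspace of the bounded operators. -/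
noncomputable instance (𝕜 : Type*) [RCLike 𝕜] (H : Type*) [NormedAddCommGroup H]
    [InnerProductSpace 𝕜 H] : NormedSpace 𝕜 (KH 𝕜 H) :=
  inferInstanceAs (NormedSpace 𝕜 ↥(compactOperator (RingHom.id 𝕜) H H))

end Pool.Agent.Helper41.WNC
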