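import Mathlib
import Pool.Agent.Helper41.WNCDefs

open Filter Topology Set
open scoped ENNReal NNReal Pointwise

namespace Pool.Agent.Helper41.WNC

section General

variable {𝕜 : Type*} [RCLike 𝕜] {X : Type*} [NormedAddCommGroup X] [NormedSpace 𝕜 X]

lemma toBidual_apply (x : X) (φ : StrongDual 𝕜 X) : toBidual 𝕜 x φ = φ x := rfl

/-- membership in the weak-star closure through ultrafilters -/
lemma exists_ultrafilter_of_mem_wstarClosure {ι : Type*} {T : ι → X} {s : Set ι}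
    {f : StrongDual 𝕜 (StrongDual 𝕜 X)} (hf : f ∈ wstarClosure 𝕜 (T '' s)) :
    ∃ 𝓕 : Ultrafilter ι, s ∈ 𝓕 ∧ ∀ φ : StrongDual 𝕜 X,
      Tendsto (fun i => φ (T i)) 𝓕 (𝓝 (f φ)) := by
  have h1 : StrongDual.toWeakDual f ∈ closure ((fun i => toBidual 𝕜 (T i)) '' s) := by
    have : (fun i => toBidual 𝕜 (T i)) '' s = toBidual 𝕜 '' (T '' s) := by
      rw [Set.image_image]
    rw [this]; exact hf
  rw [mem_closure_iff_clusterPt, ClusterPt] at h1
  have h2 : (comap (fun i => toBidual 𝕜 (T i)) (𝓝 (StrongDual.toWeakDual f)) ⊓ 𝓟 s).NeBot := by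
    rw [← Filter.map_principal] at h1
    rw [← Filter.map_neBot_iff (fun i => toBidual 𝕜 (T i)), ]
    rw [Filter.push_pull']
    exact h1
  obtain ⟨𝓕, h𝓕⟩ := Ultrafilter.exists_le
    (comap (fun i => toBidual 𝕜 (T i)) (𝓝 (StrongDual.toWeakDual f)) ⊓ 𝓟 s)
  refine ⟨𝓕, ?_, ?_⟩
  · exact Filter.le_principal_iff.1 (h𝓕.trans inf_le_right)
  · intro φ
    have h3 : Tendsto (fun i => toBidual 𝕜 (T i)) 𝓕 (𝓝 (StrongDual.toWeakDual f)) :=
      Filter.tendsto_iff_comap.2 (h𝓕.trans inf_le_left)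
    have h4 := ((WeakDual.eval_continuous (𝕜 := 𝕜) φ).tendsto (StrongDual.toWeakDual f)).comp h3
    exact h4

/-- a sufficient criterion for membership in the weak-star closure -/
lemma mem_wstarClosure_of_ultrafilter {ι : Type*} {T : ι → X} {A : Set X}
    {f : StrongDual 𝕜 (StrongDual 𝕜 X)} (𝓕 : Ultrafilter ι) (hA : ∀ᶠ i in 𝓕, T i ∈ A)
    (h : ∀ φ : StrongDual 𝕜 X, Tendsto (fun i => φ (T i)) 𝓕 (𝓝 (f φ))) :
    f ∈ wstarClosure 𝕜 A := by
  have h3 : Tendsto (fun i => toBidual 𝕜 (T i)) 𝓕 (𝓝 (StrongDual.toWeakDual f)) := by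
    rw [tendsto_iff_forall_eval_tendsto_topDualPairing]
    intro φ
    exact h φ
  have h4 : StrongDual.toWeakDual f ∈ closure (toBidual 𝕜 '' A) :=
    mem_closure_of_tendsto h3 (hA.mono fun i hi => ⟨T i, hi, rfl⟩)
  exact h4

lemma norm_inclusion_le (x : X) : ‖NormedSpace.inclusionInDoubleDual 𝕜 X x‖ ≤ ‖x‖ :=
  NormedSpace.double_dual_bound 𝕜 X x

variable (𝕜) in
/-- The closed ball of the bidual, as a set in the weak-star bidual. -/
def ballW (X : Type*) [NormedAddCommGroup X] [NormedSpace 𝕜 X] (R : ℝ) :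
    Set (WeakDual 𝕜 (StrongDual 𝕜 X)) :=
  {g | ‖WeakDual.toStrongDual g‖ ≤ R}

lemma ballW_eq (R : ℝ) : ballW 𝕜 X R =
    WeakDual.toStrongDual ⁻¹' Metric.closedBall (0 : StrongDual 𝕜 (StrongDual 𝕜 X)) R := by
  ext g
  have h : ∀ u : StrongDual 𝕜 (StrongDual 𝕜 X), dist u 0 = ‖u‖ := fun u => by
    exact dist_zero_right u
  exact (iff_of_eq (congrArg (· ≤ R) (h (WeakDual.toStrongDual g)).symm))

lemma isCompact_ballW (R : ℝ) : IsCompact (ballW 𝕜 X R) := by
  rw [ballW_eq]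
  exact WeakDual.isCompact_closedBall (𝕜 := 𝕜) (E := StrongDual 𝕜 X) 0 R

lemma isClosed_ballW (R : ℝ) : IsClosed (ballW 𝕜 X R) := by
  rw [ballW_eq]
  exact WeakDual.isClosed_closedBall (𝕜 := 𝕜) (E := StrongDual 𝕜 X) 0 R

lemma closure_toBidual_subset {A : Set X} {R : ℝ} (hA : ∀ x ∈ A, ‖x‖ ≤ R) :
    closure (toBidual 𝕜 '' A) ⊆ ballW 𝕜 X R := by
  apply closure_minimal _ (isClosed_ballW R)
  rintro _ ⟨x, hx, rfl⟩
  exact (norm_inclusion_le x).trans (hA x hx)

lemma isCompact_closure_toBidual {A : Set X} (hA : Bornology.IsBounded A) :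
    IsCompact (closure (toBidual 𝕜 '' A)) := by
  obtain ⟨R, hR⟩ := hA.exists_norm_le
  exact (isCompact_ballW R).of_isClosed_subset isClosed_closure (closure_toBidual_subset hR)

/-- For bounded `A`: `wck A ≤ wk A`. -/
lemma wck_le_wk {A : Set X} (hA : Bornology.IsBounded A) : wck 𝕜 A ≤ wk 𝕜 A := by
  unfold wck
  refine iSup₂_le fun x hx => ?_
  obtain ⟨g, hg, hgc⟩ := (isCompact_closure_toBidual (𝕜 := 𝕜) hA).exists_mapClusterPt (f := atTop)
    (u := fun n => toBidual 𝕜 (x n))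
    (by
      rw [Filter.le_principal_iff]
      exact Filter.mem_map.2 (Filter.univ_mem' fun n => subset_closure ⟨x n, hx n, rfl⟩))
  have h1 : WeakDual.toStrongDual g ∈ clust 𝕜 x := hgc
  have h2 : WeakDual.toStrongDual g ∈ wstarClosure 𝕜 A := hg
  refine (iInf₂_le (WeakDual.toStrongDual g) h1).trans ?_
  exact le_iSup₂ (f := fun a (_ : a ∈ wstarClosure 𝕜 A) => Metric.infEDist a (canon 𝕜 X)) _ h2

lemma toBidual_continuous_weak :
    Continuous (fun y : WeakSpace 𝕜 X => toBidual 𝕜 ((toWeakSpace 𝕜 X).symm y)) :=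
  (NormedSpace.inclusionInDoubleDualWeak 𝕜 X).continuous

lemma isCompact_toBidual_image {K : Set X} (hK : IsWeaklyCompact 𝕜 K) :
    IsCompact (toBidual 𝕜 '' K) := by
  have h := hK.image toBidual_continuous_weak
  rw [Set.image_image] at h
  simpa using h

/-- For every `A`: `wk A ≤ omega A`. -/
lemma wk_le_omega (A : Set X) : wk 𝕜 A ≤ omega 𝕜 A := by
  unfold omega
  refine le_iInf₂ fun K hK => ?_
  refine ENNReal.le_of_forall_pos_le_add fun ε hε hfin => ?_
  -- `r` real bound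
  set r : ℝ≥0∞ := excess A K with hr
  have hrfin : r ≠ ∞ := hfin.ne
  set R : ℝ := r.toReal + ε with hR
  have hRpos : 0 < R := add_pos_of_nonneg_of_pos ENNReal.toReal_nonneg (by exact_mod_cast hε)
  -- the compact set
  have hC : IsCompact (toBidual 𝕜 '' K + ballW 𝕜 X R) :=
    (isCompact_toBidual_image hK.2).add (isCompact_ballW R)
  have hsub : toBidual 𝕜 '' A ⊆ (toBidual 𝕜 '' K + ballW 𝕜 X R) := by
    rintro _ ⟨x, hx, rfl⟩
    have h1 : Metric.infEDist x K < ENNReal.ofReal R := by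
      have h2 : Metric.infEDist x K ≤ r :=
        le_iSup₂ (f := fun a (_ : a ∈ A) => Metric.infEDist a K) x hx
      refine h2.trans_lt ?_
      rw [hR, ENNReal.ofReal_add ENNReal.toReal_nonneg (by positivity), ENNReal.ofReal_toReal hrfin]
      exact ENNReal.lt_add_right hrfin (by simpa using hε.ne')
    obtain ⟨k, hk, hxk⟩ := Metric.infEDist_lt_iff.1 h1
    refine Set.mem_add.2 ⟨toBidual 𝕜 k, ⟨k, hk, rfl⟩, toBidual 𝕜 (x - k), ?_, ?_⟩
    · refine (norm_inclusion_le (x - k)).trans ?_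
      rw [edist_dist, dist_eq_norm] at hxk
      exact ((ENNReal.ofReal_lt_ofReal_iff hRpos).1 hxk).le
    · refine DFunLike.ext _ _ fun φ => ?_
      change φ k + φ (x - k) = φ x
      rw [← map_add]; congr 1; abel
  have hsub2 := closure_minimal hsub hC.isClosed
  unfold wk excess
  refine iSup₂_le fun f hf => ?_
  obtain ⟨_, ⟨k, hk, rfl⟩, g, hg, hfg⟩ := Set.mem_add.1 (hsub2 hf)
  have h3 : Metric.infEDist f (canon 𝕜 X) ≤ edist f (NormedSpace.inclusionInDoubleDual 𝕜 X k) :=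
    Metric.infEDist_le_edist_of_mem ⟨k, rfl⟩
  refine h3.trans ?_
  have h4 : f - NormedSpace.inclusionInDoubleDual 𝕜 X k = WeakDual.toStrongDual g := by
    have h5 : StrongDual.toWeakDual f - toBidual 𝕜 k = g := sub_eq_of_eq_add' hfg.symm
    rw [← h5]
    rfl
  rw [edist_dist, dist_eq_norm, h4]
  have hg' : ‖WeakDual.toStrongDual g‖ ≤ R := hg
  refine (ENNReal.ofReal_le_ofReal hg').trans ?_
  rw [hR, ENNReal.ofReal_add ENNReal.toReal_nonneg (by positivity), ENNReal.ofReal_toReal hrfin]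
  simp

end General

end Pool.Agent.Helper41.WNC
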