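import Mathlib
import Pool.Agent.Helper41.WNCBasic

open Filter Topology Set InnerProductSpace
open scoped ENNReal NNReal

namespace Pool.Agent.Helper41.WNC

variable {𝕜 : Type*} [RCLike 𝕜] {H : Type*} [NormedAddCommGroup H] [InnerProductSpace 𝕜 H]

/-- An increasing sequence of finite rank orthogonal projections tending strongly to `1`. -/
structure ProjSys (P : ℕ → H →L[𝕜] H) : Prop where
  zero : P 0 = 0
  mul_of_le : ∀ {m n : ℕ}, m ≤ n → P m * P n = P m
  mul_of_le' : ∀ {m n : ℕ}, m ≤ n → P n * P m = P m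
  symm : ∀ n x y, inner 𝕜 (P n x) y = inner 𝕜 x (P n y)
  tendsto : ∀ x, Tendsto (fun n => P n x) atTop (𝓝 x)
  finrank : ∀ n, ∃ (k : ℕ) (e : Fin k → H), ∀ x, P n x = ∑ i, inner 𝕜 (e i) x • e i

lemma starProjection_mul_of_le {U V : Submodule 𝕜 H} [U.HasOrthogonalProjection]
    [V.HasOrthogonalProjection] (h : U ≤ V) : V.starProjection * U.starProjection = U.starProjection := by
  ext x
  simp only [mul_apply_eq_comp]
  exact Submodule.starProjection_eq_self_iff.2 (h (Submodule.starProjection_apply_mem U x))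

lemma starProjection_mul_of_le' {U V : Submodule 𝕜 H} [U.HasOrthogonalProjection]
    [V.HasOrthogonalProjection] (h : U ≤ V) : U.starProjection * V.starProjection = U.starProjection := by
  ext x
  simp only [mul_apply_eq_comp]
  refine ext_inner_left 𝕜 fun y => ?_
  rw [← Submodule.inner_starProjection_left_eq_right, ← Submodule.inner_starProjection_left_eq_right,
    ← Submodule.inner_starProjection_left_eq_right]
  congr 1
  exact Submodule.starProjection_eq_self_iff.2 (h (Submodule.starProjection_apply_mem U y))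

/-- a symmetric idempotent has norm at most one -/
lemma norm_apply_le_of_proj {Q : H →L[𝕜] H} (hs : ∀ x y, inner 𝕜 (Q x) y = inner 𝕜 x (Q y))
    (hi : Q * Q = Q) (x : H) : ‖Q x‖ ≤ ‖x‖ := by
  have h1 : (inner 𝕜 (Q x) (Q x) : 𝕜) = inner 𝕜 x (Q x) := by
    rw [hs]
    congr 1
    exact congrArg (fun f : H →L[𝕜] H => f x) hi
  have h2 : ‖Q x‖ * ‖Q x‖ ≤ ‖x‖ * ‖Q x‖ := by
    have h3 : ‖(inner 𝕜 (Q x) (Q x) : 𝕜)‖ = ‖Q x‖ * ‖Q x‖ := by
      rw [inner_self_eq_norm_sq_to_K]
      simp [sq]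
    rw [← h3, h1]
    exact norm_inner_le_norm _ _
  by_cases h0 : ‖Q x‖ = 0
  · rw [h0]; exact norm_nonneg _
  · exact le_of_mul_le_mul_right h2 (lt_of_le_of_ne (norm_nonneg _) (Ne.symm h0))

lemma norm_le_one_of_proj {Q : H →L[𝕜] H} (hs : ∀ x y, inner 𝕜 (Q x) y = inner 𝕜 x (Q y))
    (hi : Q * Q = Q) : ‖Q‖ ≤ 1 :=
  ContinuousLinearMap.opNorm_le_bound _ zero_le_one fun x => by
    rw [one_mul]; exact norm_apply_le_of_proj hs hi x

/-- Pythagoras for two orthogonal symmetric idempotents: the sum of squares of the components. -/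
lemma norm_sq_add_le_of_proj {Q R : H →L[𝕜] H} (hs : ∀ x y, inner 𝕜 (Q x) y = inner 𝕜 x (Q y))
    (hi : Q * Q = Q) (hsR : ∀ x y, inner 𝕜 (R x) y = inner 𝕜 x (R y))
    (hiR : R * R = R) (hRQ : R * Q = 0) (x : H) :
    ‖Q x‖ ^ 2 + ‖R x‖ ^ 2 ≤ ‖x‖ ^ 2 := by
  have hort : (inner 𝕜 (Q x) (R x) : 𝕜) = 0 := by
    rw [← hsR]
    have : R (Q x) = 0 := congrArg (fun f : H →L[𝕜] H => f x) hRQ
    rw [this, inner_zero_left]
  have hQR : Q * R = 0 := by
    ext y
    refine ext_inner_left 𝕜 fun z => ?_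
    simp only [mul_apply_eq_comp, zero_apply, inner_zero_right]
    rw [← hs, ← hsR]
    have : R (Q z) = 0 := congrArg (fun f : H →L[𝕜] H => f z) hRQ
    rw [this, inner_zero_left]
  have h1 : ‖Q x + R x‖ ≤ ‖x‖ := by
    have := norm_apply_le_of_proj (Q := Q + R) (fun x y => by
      simp only [add_apply, inner_add_left, inner_add_right, hs, hsR])
      (by rw [mul_add, add_mul, add_mul, hi, hiR, hRQ, hQR]; simp) x
    simpa using this
  have h2 : ‖Q x + R x‖ ^ 2 = ‖Q x‖ ^ 2 + ‖R x‖ ^ 2 := by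
    have := norm_add_sq (𝕜 := 𝕜) (Q x) (R x)
    rw [hort] at this
    simpa using this
  rw [← h2]
  exact pow_le_pow_left₀ (norm_nonneg _) h1 2

namespace ProjSys

variable {P : ℕ → H →L[𝕜] H} (hP : ProjSys P)

include hP

lemma idem (n : ℕ) : P n * P n = P n := hP.mul_of_le le_rfl

lemma symm_diff (m n : ℕ) (x y : H) : inner 𝕜 ((P n - P m) x) y = inner 𝕜 x ((P n - P m) y) := by
  simp only [sub_apply, inner_sub_left, inner_sub_right, hP.symm]

lemma idem_diff {m n : ℕ} (h : m ≤ n) : (P n - P m) * (P n - P m) = P n - P m := by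
  rw [mul_sub, sub_mul, sub_mul, hP.idem, hP.idem, hP.mul_of_le h, hP.mul_of_le' h]
  simp

lemma symm_compl (n : ℕ) (x y : H) : inner 𝕜 ((1 - P n) x) y = inner 𝕜 x ((1 - P n) y) := by
  simp only [sub_apply, inner_sub_left, inner_sub_right, hP.symm,
    one_apply_eq_self]

lemma idem_compl (n : ℕ) : (1 - P n) * (1 - P n) = 1 - P n := by
  rw [mul_sub, sub_mul, sub_mul, hP.idem]
  simp

lemma norm_le (n : ℕ) : ‖P n‖ ≤ 1 := norm_le_one_of_proj (hP.symm n) (hP.idem n)

lemma norm_diff {m n : ℕ} (h : m ≤ n) : ‖P n - P m‖ ≤ 1 :=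
  norm_le_one_of_proj (hP.symm_diff m n) (hP.idem_diff h)

lemma norm_compl (n : ℕ) : ‖1 - P n‖ ≤ 1 :=
  norm_le_one_of_proj (hP.symm_compl n) (hP.idem_compl n)

end ProjSys

/-- In a separable Hilbert space there is such a system. -/
lemma exists_projSys [CompleteSpace H] [TopologicalSpace.SeparableSpace H] :
    ∃ P : ℕ → H →L[𝕜] H, ProjSys P := by
  classical
  let d : ℕ → H := TopologicalSpace.denseSeq H
  let U : ℕ → Submodule 𝕜 H := fun n => Submodule.span 𝕜 (d '' {i | i < n})
  have hfin : ∀ n, FiniteDimensional 𝕜 (U n) := fun n =>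
    FiniteDimensional.span_of_finite 𝕜 ((Set.finite_lt_nat n).image d)
  have hmono : Monotone U := by
    intro m n hmn
    apply Submodule.span_mono
    apply Set.image_mono
    intro i hi
    exact lt_of_lt_of_le hi hmn
  have htop : ⊤ ≤ (⨆ t, U t).topologicalClosure := by
    have h1 : Dense (((⨆ t, U t) : Submodule 𝕜 H) : Set H) := by
      apply (TopologicalSpace.denseRange_denseSeq H).mono
      rintro _ ⟨n, rfl⟩
      have : U (n+1) ≤ ⨆ t, U t := le_iSup U (n+1)
      exact this (Submodule.subset_span ⟨n, Nat.lt_succ_self n, rfl⟩)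
    rw [Submodule.dense_iff_topologicalClosure_eq_top] at h1
    rw [h1]
  refine ⟨fun n => (U n).starProjection, ?_, ?_, ?_, ?_, ?_, ?_⟩
  · have : U 0 = ⊥ := by simp [U]
    ext x
    rw [zero_apply]
    have h2 := Submodule.starProjection_apply_mem (U 0) x
    have h3 : ∀ y ∈ U 0, y = 0 := by
      rw [this]; intro y hy; simpa using hy
    exact h3 _ h2
  · intro m n hmn
    exact starProjection_mul_of_le' (hmono hmn)
  · intro m n hmn
    exact starProjection_mul_of_le (hmono hmn)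
  · intro n x y
    exact Submodule.inner_starProjection_left_eq_right _ _ _
  · intro x
    exact Submodule.starProjection_tendsto_self U hmono x htop
  · intro n
    refine ⟨Module.finrank 𝕜 (U n), fun i => (stdOrthonormalBasis 𝕜 (U n) i : H), fun x => ?_⟩
    rw [(stdOrthonormalBasis 𝕜 (U n)).starProjection_eq_sum_rankOne]
    simp

end Pool.Agent.Helper41.WNC
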