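import Mathlib
import Pool.Agent.Helper41.WNCProj

open Filter Topology Set InnerProductSpace
open scoped ENNReal NNReal

namespace Pool.Agent.Helper41.WNC

variable {𝕜 : Type*} [RCLike 𝕜] {H : Type*} [NormedAddCommGroup H] [InnerProductSpace 𝕜 H]

/-- finite rank operators of the form `∑ ⟨e i, x⟩ e i` are compact -/
lemma ProjSys.compact {P : ℕ → H →L[𝕜] H} (hP : ProjSys P) (n : ℕ) :
    IsCompactOperator (P n) := by
  obtain ⟨k, e, he⟩ := hP.finrank n
  have h1 : P n = ∑ i, (InnerProductSpace.rankOne 𝕜 (e i) (e i)) := by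
    ext x
    rw [he x]
    simp
  have h2 : ∀ i, (InnerProductSpace.rankOne 𝕜 (e i) (e i)) ∈ compactOperator (RingHom.id 𝕜) H H := by
    intro i
    have h3 : InnerProductSpace.rankOne 𝕜 (e i) (e i) =
        (ContinuousLinearMap.toSpanSingleton 𝕜 (e i)) ∘L (innerSL 𝕜 (e i)) := by
      ext x; simp
    rw [h3]
    have h4 : IsCompactOperator (innerSL 𝕜 (e i)) :=
      isCompactOperator_of_locallyCompactSpace_dom _
    exact h4.clm_comp (ContinuousLinearMap.toSpanSingleton 𝕜 (e i))
  have h5 : P n ∈ compactOperator (RingHom.id 𝕜) H H := by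
    rw [h1]
    exact Submodule.sum_mem _ fun i _ => h2 i
  exact h5

/-- strong convergence becomes norm convergence after multiplication by a compact operator -/
lemma ProjSys.eventually_norm_mul_sub_lt {P : ℕ → H →L[𝕜] H} (hP : ProjSys P)
    {S : H →L[𝕜] H} (hS : IsCompactOperator S) {ε : ℝ} (hε : 0 < ε) :
    ∀ᶠ n in atTop, ‖P n * S - S‖ < ε := by
  have hcomp := hS.isCompact_closure_image_closedBall (f := (S : H →ₗ[𝕜] H)) 1
  have htb := hcomp.totallyBounded
  rw [Metric.totallyBounded_iff] at htb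
  obtain ⟨t, htfin, ht⟩ := htb (ε / 4) (by positivity)
  have h1 : ∀ᶠ n in atTop, ∀ y ∈ t, ‖P n y - y‖ < ε / 4 := by
    rw [Filter.eventually_all_finite htfin]
    intro y _
    have h2 := (hP.tendsto y)
    have h3 := (tendsto_iff_norm_sub_tendsto_zero.1 h2)
    exact h3.eventually_lt_const (by positivity)
  filter_upwards [h1] with n hn
  have h4 : ‖P n * S - S‖ ≤ 3 * (ε / 4) := by
    apply ContinuousLinearMap.opNorm_le_of_unit_norm (by positivity)
    intro x hx
    have h5 : S x ∈ closure (S '' Metric.closedBall 0 1) :=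
      subset_closure ⟨x, by simp [hx], rfl⟩
    obtain ⟨y, hy, hxy⟩ := Set.mem_iUnion₂.1 (ht h5)
    rw [Metric.mem_ball, dist_eq_norm] at hxy
    have h6 : (P n * S - S) x = P n (S x - y) + (P n y - y) + (y - S x) := by
      rw [sub_apply, mul_apply_eq_comp, map_sub]; abel
    rw [h6]
    have h7 : ‖P n (S x - y)‖ ≤ ε / 4 := by
      calc ‖P n (S x - y)‖ ≤ ‖P n‖ * ‖S x - y‖ := (P n).le_opNorm _
        _ ≤ 1 * ‖S x - y‖ := by gcongr; exact hP.norm_le n
        _ ≤ ε / 4 := by rw [one_mul]; exact hxy.le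
    have h8 : ‖y - S x‖ ≤ ε / 4 := by rw [norm_sub_rev]; exact hxy.le
    calc _ ≤ ‖P n (S x - y)‖ + ‖P n y - y‖ + ‖y - S x‖ := norm_add₃_le
      _ ≤ ε/4 + ε/4 + ε/4 := by
        gcongr
        exact (hn y hy).le
      _ = 3 * (ε/4) := by ring
  linarith

variable [CompleteSpace H]

lemma ProjSys.adjoint_eq {P : ℕ → H →L[𝕜] H} (hP : ProjSys P) (n : ℕ) :
    ContinuousLinearMap.adjoint (P n) = P n := by
  symm
  rw [ContinuousLinearMap.eq_adjoint_iff]
  exact hP.symm n

lemma ProjSys.eventually_norm_mul_sub_lt' {P : ℕ → H →L[𝕜] H} (hP : ProjSys P)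
    {S : H →L[𝕜] H} (hS : IsCompactOperator S) {ε : ℝ} (hε : 0 < ε) :
    ∀ᶠ n in atTop, ‖S * P n - S‖ < ε := by
  obtain ⟨k, hk⟩ := (hP.eventually_norm_mul_sub_lt hS (ε := ε / 4) (by positivity)).exists
  have hcomp : IsCompactOperator (ContinuousLinearMap.adjoint S * P k) :=
    (hP.compact k).clm_comp (ContinuousLinearMap.adjoint S)
  filter_upwards [hP.eventually_norm_mul_sub_lt hcomp (ε := ε / 4) (by positivity)] with n hn
  have h1 : ‖P k * S * P n - P k * S‖ < ε / 4 := by
    have h2 : ContinuousLinearMap.adjoint (P n * (ContinuousLinearMap.adjoint S * P k) -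
        ContinuousLinearMap.adjoint S * P k) = P k * S * P n - P k * S := by
      rw [map_sub]
      have hm : ∀ A B : H →L[𝕜] H, ContinuousLinearMap.adjoint (A * B) =
          ContinuousLinearMap.adjoint B * ContinuousLinearMap.adjoint A :=
        fun A B => ContinuousLinearMap.adjoint_comp A B
      rw [hm, hm, hP.adjoint_eq, hP.adjoint_eq, ContinuousLinearMap.adjoint_adjoint]
    rw [← h2, LinearIsometryEquiv.norm_map]
    exact hn
  have h3 : S * P n - S = (P k * S * P n - P k * S) + (P k * S - S) - (P k * S - S) * P n := by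
    noncomm_ring
  rw [h3]
  have h4 : ‖(P k * S - S) * P n‖ ≤ ε / 4 := by
    calc _ ≤ ‖P k * S - S‖ * ‖P n‖ := norm_mul_le _ _
      _ ≤ ‖P k * S - S‖ * 1 := by gcongr; exact hP.norm_le n
      _ ≤ ε / 4 := by rw [mul_one]; exact hk.le
  calc _ ≤ ‖(P k * S * P n - P k * S) + (P k * S - S)‖ + ‖(P k * S - S) * P n‖ := norm_sub_le _ _
    _ ≤ (‖P k * S * P n - P k * S‖ + ‖P k * S - S‖) + ε / 4 := by
      gcongr
      exact norm_add_le _ _
    _ < (ε / 4 + ε / 4) + ε / 4 := by gcongr
    _ < ε := by linarith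

end Pool.Agent.Helper41.WNC
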