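import Mathlib
import Pool.Agent.Helper41.WNCCompact

open Filter Topology Set InnerProductSpace
open scoped ENNReal NNReal

namespace Pool.Agent.Helper41.WNC

variable {𝕜 : Type*} [RCLike 𝕜] {H : Type*} [NormedAddCommGroup H] [InnerProductSpace 𝕜 H]

lemma KH.add_coe (S T : KH 𝕜 H) : (S + T).1 = S.1 + T.1 := rfl
lemma KH.sub_coe (S T : KH 𝕜 H) : (S - T).1 = S.1 - T.1 := rfl
lemma KH.smul_coe (a : 𝕜) (S : KH 𝕜 H) : (a • S).1 = a • S.1 := rfl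
lemma KH.zero_coe : (0 : KH 𝕜 H).1 = 0 := rfl
lemma KH.norm_coe (S : KH 𝕜 H) : ‖S‖ = ‖S.1‖ := rfl
lemma KH.ext {S T : KH 𝕜 H} (h : S.1 = T.1) : S = T := Subtype.ext h

/-- left multiplication of a compact operator by a bounded one -/
def lmul (B : H →L[𝕜] H) (S : KH 𝕜 H) : KH 𝕜 H := ⟨B * S.1, S.2.clm_comp B⟩

/-- right multiplication of a compact operator by a bounded one -/
def rmul (S : KH 𝕜 H) (B : H →L[𝕜] H) : KH 𝕜 H := ⟨S.1 * B, S.2.comp_clm B⟩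

lemma lmul_coe (B : H →L[𝕜] H) (S : KH 𝕜 H) : (lmul B S).1 = B * S.1 := rfl
lemma rmul_coe (B : H →L[𝕜] H) (S : KH 𝕜 H) : (rmul S B).1 = S.1 * B := rfl

/-- general bound: a functional on `K(H)` and two elements whose combinations have norm at most
the Euclidean norm of the coefficients. -/
lemma sq_add_sq_le_of_comb (φ : StrongDual 𝕜 (KH 𝕜 H)) (S T : KH 𝕜 H)
    (h : ∀ a b : 𝕜, ‖a • S + b • T‖ ≤ Real.sqrt (‖a‖ ^ 2 + ‖b‖ ^ 2)) :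
    ‖φ S‖ ^ 2 + ‖φ T‖ ^ 2 ≤ ‖φ‖ ^ 2 := by
  set α := φ S
  set β := φ T
  have h1 : φ ((starRingEnd 𝕜 α) • S + (starRingEnd 𝕜 β) • T) = ((‖α‖ ^ 2 + ‖β‖ ^ 2 : ℝ) : 𝕜) := by
    rw [map_add, map_smul, map_smul, smul_eq_mul, smul_eq_mul, RCLike.conj_mul, RCLike.conj_mul]
    push_cast
    rfl
  have h2 : ‖φ ((starRingEnd 𝕜 α) • S + (starRingEnd 𝕜 β) • T)‖ ≤
      ‖φ‖ * Real.sqrt (‖α‖ ^ 2 + ‖β‖ ^ 2) := by
    refine (φ.le_opNorm _).trans ?_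
    gcongr
    have := h (starRingEnd 𝕜 α) (starRingEnd 𝕜 β)
    simpa using this
  rw [h1, RCLike.norm_ofReal, abs_of_nonneg (by positivity)] at h2
  set s := ‖α‖ ^ 2 + ‖β‖ ^ 2
  have hs : 0 ≤ s := by positivity
  have h3 : Real.sqrt s * Real.sqrt s ≤ ‖φ‖ * Real.sqrt s := by rwa [Real.mul_self_sqrt hs]
  by_cases h0 : Real.sqrt s = 0
  · have : s = 0 := by rwa [Real.sqrt_eq_zero hs] at h0
    rw [this]; positivity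
  · have h4 : Real.sqrt s ≤ ‖φ‖ :=
      le_of_mul_le_mul_right h3 (lt_of_le_of_ne (Real.sqrt_nonneg _) (Ne.symm h0))
    calc s = Real.sqrt s ^ 2 := (Real.sq_sqrt hs).symm
      _ ≤ ‖φ‖ ^ 2 := by gcongr

variable {P : ℕ → H →L[𝕜] H} (hP : ProjSys P)
include hP

lemma ProjSys.left_sq (φ : StrongDual 𝕜 (KH 𝕜 H)) (S T : KH 𝕜 H) (hS : ‖S‖ ≤ 1) (hT : ‖T‖ ≤ 1)
    (n : ℕ) : ‖φ (lmul (P n) S)‖ ^ 2 + ‖φ (lmul (1 - P n) T)‖ ^ 2 ≤ ‖φ‖ ^ 2 := by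
  apply sq_add_sq_le_of_comb
  intro a b
  apply ContinuousLinearMap.opNorm_le_bound _ (Real.sqrt_nonneg _)
  intro x
  have h1 : (a • lmul (P n) S + b • lmul (1 - P n) T : KH 𝕜 H).1 x =
      P n (a • S.1 x) + (1 - P n) (b • T.1 x) := by
    rw [KH.add_coe, KH.smul_coe, KH.smul_coe, lmul_coe, lmul_coe]
    simp
  change ‖(a • lmul (P n) S + b • lmul (1 - P n) T : KH 𝕜 H).1 x‖ ≤ _
  rw [h1]
  -- orthogonality
  have hort : (inner 𝕜 (P n (a • S.1 x)) ((1 - P n) (b • T.1 x)) : 𝕜) = 0 := by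
    rw [hP.symm]
    have : P n ((1 - P n) (b • T.1 x)) = (P n * (1 - P n)) (b • T.1 x) := rfl
    rw [this, mul_sub, hP.idem]
    simp
  have h2 : ‖P n (a • S.1 x) + (1 - P n) (b • T.1 x)‖ ^ 2 =
      ‖P n (a • S.1 x)‖ ^ 2 + ‖(1 - P n) (b • T.1 x)‖ ^ 2 := by
    have := norm_add_sq (𝕜 := 𝕜) (P n (a • S.1 x)) ((1 - P n) (b • T.1 x))
    rw [hort] at this
    simpa using this
  have hSx : ‖S.1 x‖ ≤ ‖x‖ := by
    calc ‖S.1 x‖ ≤ ‖S.1‖ * ‖x‖ := S.1.le_opNorm x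
      _ ≤ 1 * ‖x‖ := by gcongr; exact hS
      _ = ‖x‖ := one_mul _
  have hTx : ‖T.1 x‖ ≤ ‖x‖ := by
    calc ‖T.1 x‖ ≤ ‖T.1‖ * ‖x‖ := T.1.le_opNorm x
      _ ≤ 1 * ‖x‖ := by gcongr; exact hT
      _ = ‖x‖ := one_mul _
  have h3 : ‖P n (a • S.1 x)‖ ≤ ‖a‖ * ‖x‖ := by
    refine (norm_apply_le_of_proj (hP.symm n) (hP.idem n) _).trans ?_
    rw [norm_smul]; gcongr
  have h4 : ‖(1 - P n) (b • T.1 x)‖ ≤ ‖b‖ * ‖x‖ := by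
    refine (norm_apply_le_of_proj (hP.symm_compl n) (hP.idem_compl n) _).trans ?_
    rw [norm_smul]; gcongr
  have h5 : ‖P n (a • S.1 x) + (1 - P n) (b • T.1 x)‖ ^ 2 ≤ (‖a‖ ^ 2 + ‖b‖ ^ 2) * ‖x‖ ^ 2 := by
    rw [h2]
    calc _ ≤ (‖a‖ * ‖x‖) ^ 2 + (‖b‖ * ‖x‖) ^ 2 := by gcongr
      _ = _ := by ring
  have h6 := Real.sqrt_le_sqrt h5
  rw [Real.sqrt_sq (norm_nonneg _), Real.sqrt_mul (by positivity), Real.sqrt_sq (norm_nonneg _)] at h6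
  exact h6

lemma ProjSys.right_sq (φ : StrongDual 𝕜 (KH 𝕜 H)) (S T : KH 𝕜 H) (hS : ‖S‖ ≤ 1) (hT : ‖T‖ ≤ 1)
    (n : ℕ) : ‖φ (rmul S (P n))‖ ^ 2 + ‖φ (rmul T (1 - P n))‖ ^ 2 ≤ ‖φ‖ ^ 2 := by
  apply sq_add_sq_le_of_comb
  intro a b
  apply ContinuousLinearMap.opNorm_le_bound _ (Real.sqrt_nonneg _)
  intro x
  have h1 : (a • rmul S (P n) + b • rmul T (1 - P n) : KH 𝕜 H).1 x =
      a • S.1 (P n x) + b • T.1 ((1 - P n) x) := by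
    rw [KH.add_coe, KH.smul_coe, KH.smul_coe, rmul_coe, rmul_coe]
    simp
  change ‖(a • rmul S (P n) + b • rmul T (1 - P n) : KH 𝕜 H).1 x‖ ≤ _
  rw [h1]
  have hSx : ‖S.1 (P n x)‖ ≤ ‖P n x‖ := by
    calc ‖S.1 (P n x)‖ ≤ ‖S.1‖ * ‖P n x‖ := S.1.le_opNorm _
      _ ≤ 1 * ‖P n x‖ := by gcongr; exact hS
      _ = ‖P n x‖ := one_mul _
  have hTx : ‖T.1 ((1 - P n) x)‖ ≤ ‖(1 - P n) x‖ := by
    calc ‖T.1 ((1 - P n) x)‖ ≤ ‖T.1‖ * ‖(1 - P n) x‖ := T.1.le_opNorm _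
      _ ≤ 1 * ‖(1 - P n) x‖ := by gcongr; exact hT
      _ = ‖(1 - P n) x‖ := one_mul _
  have h2 : ‖a • S.1 (P n x) + b • T.1 ((1 - P n) x)‖ ≤ ‖a‖ * ‖P n x‖ + ‖b‖ * ‖(1 - P n) x‖ := by
    refine (norm_add_le _ _).trans ?_
    rw [norm_smul, norm_smul]
    gcongr
  have h3 : ‖P n x‖ ^ 2 + ‖(1 - P n) x‖ ^ 2 ≤ ‖x‖ ^ 2 := by
    apply norm_sq_add_le_of_proj (hP.symm n) (hP.idem n) (hP.symm_compl n) (hP.idem_compl n)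
    rw [sub_mul, hP.idem]; simp
  refine h2.trans ?_
  have h4 : (‖a‖ * ‖P n x‖ + ‖b‖ * ‖(1 - P n) x‖) ^ 2 ≤ (‖a‖ ^ 2 + ‖b‖ ^ 2) * ‖x‖ ^ 2 := by
    have h5 : (‖a‖ * ‖P n x‖ + ‖b‖ * ‖(1 - P n) x‖) ^ 2 ≤
        (‖a‖ ^ 2 + ‖b‖ ^ 2) * (‖P n x‖ ^ 2 + ‖(1 - P n) x‖ ^ 2) := by
      nlinarith [sq_nonneg (‖a‖ * ‖(1 - P n) x‖ - ‖b‖ * ‖P n x‖)]
    refine h5.trans ?_
    gcongr
  have h6 := Real.sqrt_le_sqrt h4
  rw [Real.sqrt_sq (by positivity), Real.sqrt_mul (by positivity), Real.sqrt_sq (norm_nonneg _)] at h6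
  exact h6

lemma ProjSys.tendsto_lmul (S : KH 𝕜 H) : Tendsto (fun n => lmul (P n) S) atTop (𝓝 S) := by
  rw [Metric.tendsto_atTop']
  intro ε hε
  obtain ⟨N, hN⟩ := Filter.eventually_atTop.1 (hP.eventually_norm_mul_sub_lt S.2 hε)
  refine ⟨N, fun n hn => ?_⟩
  rw [dist_eq_norm]
  exact hN n hn.le

lemma ProjSys.eventually_left (φ : StrongDual 𝕜 (KH 𝕜 H)) {ε : ℝ} (hε : 0 < ε) :
    ∀ᶠ n in atTop, ∀ S : KH 𝕜 H, ‖S‖ ≤ 1 → ‖φ (lmul (1 - P n) S)‖ ≤ ε := by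
  by_cases hφ : ‖φ‖ ≤ ε
  · refine Eventually.of_forall fun n S hS => ?_
    have h1 : ‖lmul (1 - P n) S‖ ≤ 1 := by
      change ‖(1 - P n) * S.1‖ ≤ 1
      calc _ ≤ ‖1 - P n‖ * ‖S.1‖ := norm_mul_le _ _
        _ ≤ 1 * 1 := by gcongr; exacts [hP.norm_compl n, hS]
        _ = 1 := one_mul _
    calc ‖φ (lmul (1 - P n) S)‖ ≤ ‖φ‖ * ‖lmul (1 - P n) S‖ := φ.le_opNorm _
      _ ≤ ‖φ‖ * 1 := by gcongr
      _ ≤ ε := by rwa [mul_one]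
  · push Not at hφ
    set r := Real.sqrt (‖φ‖ ^ 2 - ε ^ 2) with hr
    have hpos : 0 ≤ ‖φ‖ ^ 2 - ε ^ 2 := by nlinarith
    have hr1 : r < ‖φ‖ := by
      rw [hr, Real.sqrt_lt' (by linarith)]
      nlinarith
    obtain ⟨S₀, hS₀, hS₀'⟩ := φ.exists_lt_apply_of_lt_opNorm hr1
    have h2 : Tendsto (fun n => ‖φ (lmul (P n) S₀)‖) atTop (𝓝 ‖φ S₀‖) :=
      ((φ.continuous.tendsto S₀).comp (hP.tendsto_lmul S₀)).norm
    filter_upwards [h2.eventually_const_lt hS₀'] with n hn S hS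
    have h3 := hP.left_sq φ S₀ S hS₀.le hS n
    have h4 : r ^ 2 = ‖φ‖ ^ 2 - ε ^ 2 := Real.sq_sqrt hpos
    have h5 : r ^ 2 ≤ ‖φ (lmul (P n) S₀)‖ ^ 2 := by
      have := Real.sqrt_nonneg (‖φ‖ ^ 2 - ε ^ 2)
      gcongr
    have h6 : ‖φ (lmul (1 - P n) S)‖ ^ 2 ≤ ε ^ 2 := by linarith
    exact le_of_sq_le_sq h6 hε.le

variable [CompleteSpace H]

lemma ProjSys.tendsto_rmul (S : KH 𝕜 H) : Tendsto (fun n => rmul S (P n)) atTop (𝓝 S) := by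
  rw [Metric.tendsto_atTop']
  intro ε hε
  obtain ⟨N, hN⟩ := Filter.eventually_atTop.1 (hP.eventually_norm_mul_sub_lt' S.2 hε)
  refine ⟨N, fun n hn => ?_⟩
  rw [dist_eq_norm]
  exact hN n hn.le

lemma ProjSys.eventually_right (φ : StrongDual 𝕜 (KH 𝕜 H)) {ε : ℝ} (hε : 0 < ε) :
    ∀ᶠ n in atTop, ∀ S : KH 𝕜 H, ‖S‖ ≤ 1 → ‖φ (rmul S (1 - P n))‖ ≤ ε := by
  by_cases hφ : ‖φ‖ ≤ ε
  · refine Eventually.of_forall fun n S hS => ?_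
    have h1 : ‖rmul S (1 - P n)‖ ≤ 1 := by
      change ‖S.1 * (1 - P n)‖ ≤ 1
      calc _ ≤ ‖S.1‖ * ‖1 - P n‖ := norm_mul_le _ _
        _ ≤ 1 * 1 := by gcongr; exacts [hS, hP.norm_compl n]
        _ = 1 := one_mul _
    calc ‖φ (rmul S (1 - P n))‖ ≤ ‖φ‖ * ‖rmul S (1 - P n)‖ := φ.le_opNorm _
      _ ≤ ‖φ‖ * 1 := by gcongr
      _ ≤ ε := by rwa [mul_one]
  · push Not at hφ
    set r := Real.sqrt (‖φ‖ ^ 2 - ε ^ 2) with hr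
    have hpos : 0 ≤ ‖φ‖ ^ 2 - ε ^ 2 := by nlinarith
    have hr1 : r < ‖φ‖ := by
      rw [hr, Real.sqrt_lt' (by linarith)]
      nlinarith
    obtain ⟨S₀, hS₀, hS₀'⟩ := φ.exists_lt_apply_of_lt_opNorm hr1
    have h2 : Tendsto (fun n => ‖φ (rmul S₀ (P n))‖) atTop (𝓝 ‖φ S₀‖) :=
      ((φ.continuous.tendsto S₀).comp (hP.tendsto_rmul S₀)).norm
    filter_upwards [h2.eventually_const_lt hS₀'] with n hn S hS
    have h3 := hP.right_sq φ S₀ S hS₀.le hS n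
    have h4 : r ^ 2 = ‖φ‖ ^ 2 - ε ^ 2 := Real.sq_sqrt hpos
    have h5 : r ^ 2 ≤ ‖φ (rmul S₀ (P n))‖ ^ 2 := by
      have := Real.sqrt_nonneg (‖φ‖ ^ 2 - ε ^ 2)
      gcongr
    have h6 : ‖φ (rmul S (1 - P n))‖ ^ 2 ≤ ε ^ 2 := by linarith
    exact le_of_sq_le_sq h6 hε.le

/-- Every functional on `K(H)` is uniformly approximated on the unit ball by its finite corners. -/
lemma ProjSys.eventually_corner (φ : StrongDual 𝕜 (KH 𝕜 H)) {ε : ℝ} (hε : 0 < ε) :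
    ∀ᶠ n in atTop, ∀ S : KH 𝕜 H, ‖S‖ ≤ 1 → ‖φ S - φ (lmul (P n) (rmul S (P n)))‖ ≤ ε := by
  filter_upwards [hP.eventually_left φ (half_pos hε), hP.eventually_right φ (half_pos hε)]
    with n h1 h2 S hS
  have h3 : S - lmul (P n) (rmul S (P n)) = lmul (1 - P n) (rmul S (P n)) + rmul S (1 - P n) := by
    apply KH.ext
    rw [KH.sub_coe, KH.add_coe, lmul_coe, lmul_coe, rmul_coe, rmul_coe]
    noncomm_ring
  rw [← map_sub, h3, map_add]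
  have h4 : ‖rmul S (P n)‖ ≤ 1 := by
    change ‖S.1 * P n‖ ≤ 1
    calc _ ≤ ‖S.1‖ * ‖P n‖ := norm_mul_le _ _
      _ ≤ 1 * 1 := by gcongr; exacts [hS, hP.norm_le n]
      _ = 1 := one_mul _
  calc _ ≤ ‖φ (lmul (1 - P n) (rmul S (P n)))‖ + ‖φ (rmul S (1 - P n))‖ := norm_add_le _ _
    _ ≤ ε / 2 + ε / 2 := add_le_add (h1 _ h4) (h2 _ hS)
    _ = ε := by ring

omit hP in
/-- The matrix coefficient functional `S ↦ ⟪v, S u⟫`. -/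
noncomputable def coef (u v : H) : StrongDual 𝕜 (KH 𝕜 H) :=
  LinearMap.mkContinuous
    { toFun := fun S => inner 𝕜 v (S.1 u)
      map_add' := fun S T => by
        rw [KH.add_coe, add_apply, inner_add_right]
      map_smul' := fun a S => by
        rw [KH.smul_coe, smul_apply, inner_smul_right]; rfl }
    (‖u‖ * ‖v‖) (fun S => by
      change ‖(inner 𝕜 v (S.1 u) : 𝕜)‖ ≤ ‖u‖ * ‖v‖ * ‖S.1‖
      calc _ ≤ ‖v‖ * ‖S.1 u‖ := norm_inner_le_norm _ _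
        _ ≤ ‖v‖ * (‖S.1‖ * ‖u‖) := by gcongr; exact S.1.le_opNorm u
        _ = _ := by ring)

omit hP in
lemma coef_apply (u v : H) (S : KH 𝕜 H) : coef u v S = inner 𝕜 v (S.1 u) := rfl

omit hP in
lemma norm_coef_le (u v : H) : ‖(coef u v : StrongDual 𝕜 (KH 𝕜 H))‖ ≤ ‖u‖ * ‖v‖ :=
  LinearMap.mkContinuous_norm_le _ (by positivity) _

end Pool.Agent.Helper41.WNC
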