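import Mathlib
import Pool.Agent.Helper41.WNCDual

open Filter Topology Set InnerProductSpace
open scoped ENNReal NNReal

namespace Pool.Agent.Helper41.WNC

variable {𝕜 : Type*} [RCLike 𝕜] {H : Type*} [NormedAddCommGroup H] [InnerProductSpace 𝕜 H]

lemma isCompactOperator_rankOne (u v : H) : IsCompactOperator (InnerProductSpace.rankOne 𝕜 u v) := by
  have h3 : InnerProductSpace.rankOne 𝕜 u v =
      (ContinuousLinearMap.toSpanSingleton 𝕜 u) ∘L (innerSL 𝕜 v) := by
    ext x; simp
  rw [h3]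
  have h4 : IsCompactOperator (innerSL 𝕜 v) :=
    isCompactOperator_of_locallyCompactSpace_dom _
  exact h4.clm_comp (ContinuousLinearMap.toSpanSingleton 𝕜 u)

/-- the rank one operator `x ↦ ⟪v, x⟫ u` as a compact operator -/
noncomputable def rk (u v : H) : KH 𝕜 H := ⟨InnerProductSpace.rankOne 𝕜 u v, isCompactOperator_rankOne u v⟩

lemma rk_apply (u v x : H) : (rk u v : KH 𝕜 H).1 x = inner 𝕜 v x • u := by
  change InnerProductSpace.rankOne 𝕜 u v x = _
  simp

lemma KH.sum_coe {ι : Type*} (s : Finset ι) (f : ι → KH 𝕜 H) : (∑ i ∈ s, f i).1 = ∑ i ∈ s, (f i).1 := by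
  classical
  induction s using Finset.induction_on with
  | empty => simp [KH.zero_coe]
  | insert a s ha ih => rw [Finset.sum_insert ha, Finset.sum_insert ha, KH.add_coe, ih]

lemma corner_eq {k : ℕ} {e : Fin k → H} {Q : H →L[𝕜] H}
    (he : ∀ x, Q x = ∑ i, inner 𝕜 (e i) x • e i) (S : KH 𝕜 H) :
    lmul Q (rmul S Q) = ∑ i, ∑ j, (coef (e j) (e i) S) • (rk (e i) (e j) : KH 𝕜 H) := by
  apply KH.ext
  rw [KH.sum_coe]
  ext x
  rw [lmul_coe, rmul_coe]
  simp only [mul_apply_eq_comp, KH.sum_coe, KH.smul_coe, sum_apply, smul_apply,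
    rk_apply]
  rw [he (S.1 (Q x))]
  refine Finset.sum_congr rfl fun i _ => ?_
  rw [he x, map_sum, inner_sum, Finset.sum_smul]
  refine Finset.sum_congr rfl fun j _ => ?_
  rw [map_smul, inner_smul_right, smul_smul, mul_comm]
  rfl

variable [CompleteSpace H] {P : ℕ → H →L[𝕜] H} (hP : ProjSys P)

include hP in
/-- An element of the bidual of `K(H)` vanishing on all matrix coefficients is zero. -/
lemma ProjSys.bidual_eq_zero (b : StrongDual 𝕜 (StrongDual 𝕜 (KH 𝕜 H)))
    (hb : ∀ u v : H, b (coef u v) = 0) : b = 0 := by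
  refine ContinuousLinearMap.ext fun φ => ?_
  rw [zero_apply]
  by_contra hne
  have hpos : 0 < ‖b φ‖ := norm_pos_iff.2 hne
  set ε := ‖b φ‖ / (2 * (‖b‖ + 1)) with hε
  have hεpos : 0 < ε := by positivity
  obtain ⟨n, hn⟩ := (hP.eventually_corner φ hεpos).exists
  obtain ⟨k, e, he⟩ := hP.finrank n
  set ψ : StrongDual 𝕜 (KH 𝕜 H) := ∑ i, ∑ j, φ (rk (e i) (e j)) • coef (e j) (e i) with hψ
  have h1 : ∀ S, ψ S = φ (lmul (P n) (rmul S (P n))) := by
    intro S
    rw [corner_eq he, hψ, map_sum]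
    simp only [sum_apply, map_sum, map_smul, smul_apply, smul_eq_mul]
    refine Finset.sum_congr rfl fun i _ => Finset.sum_congr rfl fun j _ => mul_comm _ _
  have h2 : ‖φ - ψ‖ ≤ ε := by
    apply ContinuousLinearMap.opNorm_le_of_unit_norm hεpos.le
    intro S hS
    rw [sub_apply, h1]
    exact hn S hS.le
  have h3 : b ψ = 0 := by
    rw [hψ, map_sum]
    refine Finset.sum_eq_zero fun i _ => ?_
    rw [map_sum]
    refine Finset.sum_eq_zero fun j _ => ?_
    rw [map_smul, hb, smul_zero]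
  have h4 : b φ = b (φ - ψ) := by rw [map_sub, h3, sub_zero]
  have h5 : ‖b φ‖ ≤ ‖b‖ * ε := by
    rw [h4]
    exact (b.le_opNorm _).trans (by gcongr)
  have h6 : ‖b‖ * ε < ‖b φ‖ := by
    rw [hε, ← mul_div_assoc, div_lt_iff₀ (by positivity)]
    nlinarith [norm_nonneg b]
  linarith

/-- The bounded operator on `H` whose matrix coefficients are those of an element of the bidual
of `K(H)`. -/
noncomputable def opOf (b : StrongDual 𝕜 (StrongDual 𝕜 (KH 𝕜 H))) : H →L[𝕜] H :=
  ContinuousLinearMap.adjoint (InnerProductSpace.continuousLinearMapOfBilin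
    (LinearMap.mkContinuous₂ (LinearMap.mk₂'ₛₗ (starRingEnd 𝕜) (RingHom.id 𝕜)
      (fun v u => b (coef u v))
      (fun v v' u => by
        rw [← map_add]; congr 1; ext S
        rw [add_apply, coef_apply, coef_apply, coef_apply, inner_add_left])
      (fun c v u => by
        rw [← map_smul]; congr 1; ext S
        rw [smul_apply, coef_apply, coef_apply, inner_smul_left]; rfl)
      (fun v u u' => by
        rw [← map_add]; congr 1; ext S
        rw [add_apply, coef_apply, coef_apply, coef_apply, map_add, inner_add_right])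
      (fun c v u => by
        rw [RingHom.id_apply, ← map_smul]; congr 1; ext S
        rw [smul_apply, coef_apply, coef_apply, map_smul, inner_smul_right]; rfl))
      ‖b‖ (fun v u => by
        change ‖b (coef u v)‖ ≤ ‖b‖ * ‖v‖ * ‖u‖
        refine (b.le_opNorm _).trans ?_
        rw [mul_assoc, mul_comm ‖v‖]
        gcongr
        exact norm_coef_le u v)))

lemma inner_opOf (b : StrongDual 𝕜 (StrongDual 𝕜 (KH 𝕜 H))) (u v : H) :
    inner 𝕜 v (opOf b u) = b (coef u v) := by
  rw [opOf, ContinuousLinearMap.adjoint_inner_right, continuousLinearMapOfBilin_apply]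
  rfl

lemma norm_opOf_le (b : StrongDual 𝕜 (StrongDual 𝕜 (KH 𝕜 H))) : ‖opOf b‖ ≤ ‖b‖ := by
  have hb0 : 0 ≤ ‖b‖ := norm_nonneg b
  apply ContinuousLinearMap.opNorm_le_bound _ hb0
  intro u
  by_cases h0 : ‖opOf b u‖ = 0
  · rw [h0]; positivity
  have h1 : ‖opOf b u‖ * ‖opOf b u‖ ≤ (‖b‖ * ‖u‖) * ‖opOf b u‖ := by
    have h2 : ‖(inner 𝕜 (opOf b u) (opOf b u) : 𝕜)‖ = ‖opOf b u‖ * ‖opOf b u‖ := by
      rw [inner_self_eq_norm_sq_to_K]
      simp [sq]
    rw [← h2, inner_opOf]
    refine (b.le_opNorm _).trans ?_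
    rw [mul_assoc]
    gcongr
    exact norm_coef_le _ _
  exact le_of_mul_le_mul_right h1 (lt_of_le_of_ne (norm_nonneg _) (Ne.symm h0))

lemma opOf_sub_inclusion (b : StrongDual 𝕜 (StrongDual 𝕜 (KH 𝕜 H))) (S : KH 𝕜 H) :
    opOf (b - NormedSpace.inclusionInDoubleDual 𝕜 (KH 𝕜 H) S) = opOf b - S.1 := by
  ext u
  refine ext_inner_left 𝕜 fun v => ?_
  rw [inner_opOf, sub_apply, sub_apply, inner_sub_right, inner_opOf]
  rfl

end Pool.Agent.Helper41.WNC
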