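import Mathlib

open Filter Topology Set

namespace Pool.Agent.Helper41.WNC

/-- Combinatorial core: `Γ` is uncountable and embeds in the Cantor set; to each `x : Γ` is attached a
hereditary compact family `U x` of finite subsets of `ℕ`. Then there is an `m`-element set `F`,
whose members agree up to `N`, such that `[0, N)` is not covered by members of the `U x`, `x ∈ F`. -/
lemma exists_bad_finset {Γ : Type*} [Uncountable Γ] (c : Γ → ℕ → Bool) (m : ℕ)
    (U : Γ → Set (Set ℕ))
    (hfin : ∀ x, ∀ s ∈ U x, s.Finite)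
    (hmono : ∀ x, ∀ s ∈ U x, ∀ s' ⊆ s, s' ∈ U x)
    (hclosed : ∀ x, ∀ s : Set ℕ, (∀ n, s ∩ {i | i < n} ∈ U x) → s ∈ U x) :
    ∃ (F : Finset Γ) (N : ℕ), F.card = m ∧ (∀ x ∈ F, ∀ y ∈ F, ∀ i < N, c x i = c y i) ∧
      ∀ V : Γ → Set ℕ, (∀ x ∈ F, V x ∈ U x) → ∃ i < N, ∀ x ∈ F, i ∉ V x := by
  classical
  -- traces
  let t : ℕ → Γ → Finset (Finset ℕ) := fun n y =>
    ((Finset.range n).powerset).filter (fun s => (s : Set ℕ) ∈ U y)
  have hx₀ : ∃ x₀ : Γ, ∀ n, {y | t n y = t n x₀}.Infinite := by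
    by_contra hcon
    push Not at hcon
    have hcov : (Set.univ : Set Γ) ⊆ ⋃ p : ℕ × Finset (Finset ℕ),
        {y | t p.1 y = p.2 ∧ {z | t p.1 z = p.2}.Finite} := by
      intro x _
      obtain ⟨n, hn⟩ := hcon x
      exact Set.mem_iUnion.2 ⟨(n, t n x), rfl, hn⟩
    have hcount : (⋃ p : ℕ × Finset (Finset ℕ),
        {y | t p.1 y = p.2 ∧ {z | t p.1 z = p.2}.Finite}).Countable := by
      apply Set.countable_iUnion
      intro p
      by_cases hp : {z | t p.1 z = p.2}.Finite
      · exact (hp.subset fun y hy => hy.1).countable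
      · have : {y | t p.1 y = p.2 ∧ {z | t p.1 z = p.2}.Finite} = ∅ := by
          ext y; simp [hp]
        rw [this]; exact Set.countable_empty
    exact Set.not_countable_univ (hcount.mono hcov)
  obtain ⟨x₀, hx₀⟩ := hx₀
  -- choose the finite sets
  have hF : ∀ n, ∃ F : Finset Γ, F.card = m ∧ (∀ y ∈ F, t n y = t n x₀) ∧
      (∀ x ∈ F, ∀ y ∈ F, ∀ i < n, c x i = c y i) := by
    intro n
    have hinf := (hx₀ n).to_subtype
    obtain ⟨p, hp⟩ := Finite.exists_infinite_fiber
      (fun y : {y | t n y = t n x₀} => (fun i : Fin n => c y.1 i))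
    obtain ⟨G, hG⟩ := Infinite.exists_subset_card_eq
      ((fun y : {y | t n y = t n x₀} => (fun i : Fin n => c y.1 i)) ⁻¹' {p} : Set _) m
    refine ⟨G.map ⟨fun y => y.1.1, ?_⟩, ?_, ?_, ?_⟩
    · intro a b hab
      exact Subtype.ext (Subtype.ext hab)
    · rw [Finset.card_map]; exact hG
    · intro y hy
      obtain ⟨z, _, rfl⟩ := Finset.mem_map.1 hy
      exact z.1.2
    · intro x hx y hy i hi
      obtain ⟨z, _, rfl⟩ := Finset.mem_map.1 hx
      obtain ⟨w, _, rfl⟩ := Finset.mem_map.1 hy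
      have h1 : (fun i : Fin n => c z.1.1 i) = p := z.2
      have h2 : (fun i : Fin n => c w.1.1 i) = p := w.2
      have h3 := congrFun (h1.trans h2.symm) ⟨i, hi⟩
      exact h3
  choose F hFcard hFt hFagree using hF
  by_contra hcon
  push Not at hcon
  choose V hVU hVcov using fun n => hcon (F n) n (hFcard n) (hFagree n)
  -- members of the family of `x₀`
  let e : ∀ n, F n ≃ Fin m := fun n => (F n).equivFinOfCardEq (hFcard n)
  let W : ℕ → Fin m → Set ℕ := fun n j => V n ((e n).symm j) ∩ {i | i < n}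
  have hW : ∀ n j, W n j ∈ U x₀ := by
    intro n j
    set y : Γ := ((e n).symm j : Γ) with hy
    have hyF : y ∈ F n := ((e n).symm j).2
    have h1 : W n j ∈ U y := hmono y _ (hVU n y hyF) _ Set.inter_subset_left
    have hfinW : (W n j).Finite := hfin y _ h1
    have h2 : hfinW.toFinset ∈ t n y := by
      refine Finset.mem_filter.2 ⟨Finset.mem_powerset.2 ?_, ?_⟩
      · intro i hi
        have hi' : i ∈ W n j := hfinW.mem_toFinset.1 hi
        exact Finset.mem_range.2 hi'.2
      · rw [hfinW.coe_toFinset]; exact h1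
    rw [hFt n y hyF] at h2
    have h3 := (Finset.mem_filter.1 h2).2
    rwa [hfinW.coe_toFinset] at h3
  have hWcov : ∀ n, ∀ i < n, ∃ j, i ∈ W n j := by
    intro n i hi
    obtain ⟨x, hx, hix⟩ := hVcov n i hi
    refine ⟨e n ⟨x, hx⟩, ?_, hi⟩
    simpa using hix
  -- ultrafilter limit
  let 𝓤 : Ultrafilter ℕ := Filter.hyperfilter ℕ
  let Z : Fin m → Set ℕ := fun j => {i | ∀ᶠ n in 𝓤, i ∈ W n j}
  have hZ : ∀ j, Z j ∈ U x₀ := by
    intro j
    apply hclosed
    intro l
    have h1 : ∀ᶠ n in 𝓤, ∀ i ∈ Finset.range l, i ∈ Z j → i ∈ W n j := by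
      rw [Filter.eventually_all_finset]
      intro i _
      by_cases hi : i ∈ Z j
      · have hi' : ∀ᶠ n in 𝓤, i ∈ W n j := hi
        exact hi'.mono fun n hn _ => hn
      · exact Eventually.of_forall fun n h => absurd h hi
    obtain ⟨n, hn⟩ := h1.exists
    refine hmono x₀ _ (hW n j) _ ?_
    rintro i ⟨hi, hil⟩
    exact hn i (Finset.mem_range.2 hil) hi
  have hcovZ : (Set.univ : Set ℕ) ⊆ ⋃ j, Z j := by
    intro i _
    by_contra hi
    rw [Set.mem_iUnion] at hi
    push Not at hi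
    have h1 : ∀ᶠ n in 𝓤, ∀ j, i ∉ W n j := by
      rw [Filter.eventually_all]
      intro j
      exact Ultrafilter.eventually_not.2 (hi j)
    have h2 : ∀ᶠ n in (𝓤 : Filter ℕ), i < n := by
      have h3 : (𝓤 : Filter ℕ) ≤ atTop := by
        rw [← Nat.cofinite_eq_atTop]
        exact Filter.hyperfilter_le_cofinite
      exact h3 (Filter.eventually_gt_atTop i)
    obtain ⟨n, hn1, hn2⟩ := (h1.and h2).exists
    obtain ⟨j, hj⟩ := hWcov n i hn2
    exact hn1 j hj
  have hfinuniv : (Set.univ : Set ℕ).Finite :=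
    (Set.finite_iUnion fun j => hfin x₀ _ (hZ j)).subset hcovZ
  exact Set.infinite_univ hfinuniv

end Pool.Agent.Helper41.WNC
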