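import Mathlib
import Pool.Agent.Helper41.WNCBidual

open Filter Topology Set InnerProductSpace
open scoped ENNReal NNReal

namespace Pool.Agent.Helper41.WNC

variable {𝕜 : Type*} [RCLike 𝕜] {H : Type*} [NormedAddCommGroup H] [InnerProductSpace 𝕜 H]

/-- norm of a block diagonal sum -/
lemma norm_add_le_of_blocks {Q R A B : H →L[𝕜] H} {t : ℝ} (ht : 0 ≤ t)
    (hs : ∀ x y, inner 𝕜 (Q x) y = inner 𝕜 x (Q y))
    (hi : Q * Q = Q) (hsR : ∀ x y, inner 𝕜 (R x) y = inner 𝕜 x (R y))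
    (hiR : R * R = R) (hRQ : R * Q = 0) (hA1 : Q * A = A) (hA2 : A * Q = A)
    (hB1 : R * B = B) (hB2 : B * R = B) (hA : ‖A‖ ≤ t) (hB : ‖B‖ ≤ t) : ‖A + B‖ ≤ t := by
  apply ContinuousLinearMap.opNorm_le_bound _ ht
  intro x
  have hort : (inner 𝕜 (A x) (B x) : 𝕜) = 0 := by
    have h1 : A x = Q (A x) := (congrArg (fun f : H →L[𝕜] H => f x) hA1).symm
    have h2 : B x = R (B x) := (congrArg (fun f : H →L[𝕜] H => f x) hB1).symm
    rw [h1, h2, ← hsR]
    have h3 : R (Q (A x)) = 0 := congrArg (fun f : H →L[𝕜] H => f (A x)) hRQ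
    rw [h3, inner_zero_left]
  have h2 : ‖A x + B x‖ ^ 2 = ‖A x‖ ^ 2 + ‖B x‖ ^ 2 := by
    have := norm_add_sq (𝕜 := 𝕜) (A x) (B x)
    rw [hort] at this
    simpa using this
  have hAx : ‖A x‖ ≤ t * ‖Q x‖ := by
    have h1 : A x = A (Q x) := (congrArg (fun f : H →L[𝕜] H => f x) hA2).symm
    rw [h1]
    exact (A.le_opNorm _).trans (by gcongr)
  have hBx : ‖B x‖ ≤ t * ‖R x‖ := by
    have h1 : B x = B (R x) := (congrArg (fun f : H →L[𝕜] H => f x) hB2).symm
    rw [h1]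
    exact (B.le_opNorm _).trans (by gcongr)
  have h3 := norm_sq_add_le_of_proj hs hi hsR hiR hRQ x
  have h4 : ‖A x + B x‖ ^ 2 ≤ (t * ‖x‖) ^ 2 := by
    rw [h2]
    calc ‖A x‖ ^ 2 + ‖B x‖ ^ 2 ≤ (t * ‖Q x‖) ^ 2 + (t * ‖R x‖) ^ 2 := by gcongr
      _ = t ^ 2 * (‖Q x‖ ^ 2 + ‖R x‖ ^ 2) := by ring
      _ ≤ t ^ 2 * ‖x‖ ^ 2 := by gcongr
      _ = (t * ‖x‖) ^ 2 := by ring
  rw [add_apply]
  exact le_of_sq_le_sq h4 (by positivity)

/-- compression of `T` to the block between `m` and `n` -/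
def blk (P : ℕ → H →L[𝕜] H) (m n : ℕ) (T : H →L[𝕜] H) : H →L[𝕜] H :=
  (P n - P m) * T * (P n - P m)

/-- The greedy stopping process: `M n` is the last stopping time before `n`, and `Y n` is the sum
of the completed blocks. -/
structure IsProc (P : ℕ → H →L[𝕜] H) (t : ℝ) (T : H →L[𝕜] H) (M : ℕ → ℕ)
    (Y : ℕ → H →L[𝕜] H) : Prop where
  M0 : M 0 = 0
  Y0 : Y 0 = 0
  step : ∀ n, (M (n + 1) = M n ∧ Y (n + 1) = Y n ∧ ‖blk P (M n) (n + 1) T‖ ≤ t) ∨
     (M (n + 1) = n + 1 ∧ Y (n + 1) = Y n + blk P (M n) n T ∧ t ≤ ‖blk P (M n) (n + 1) T‖)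

lemma exists_isProc (P : ℕ → H →L[𝕜] H) (t : ℝ) (T : H →L[𝕜] H) :
    ∃ M Y, IsProc P t T M Y := by
  classical
  let st : ℕ → ℕ × (H →L[𝕜] H) := fun n => Nat.rec (0, 0) (fun n s =>
    if ‖blk P s.1 (n + 1) T‖ ≤ t then s else (n + 1, s.2 + blk P s.1 n T)) n
  have hst : ∀ n, st (n + 1) = if ‖blk P (st n).1 (n + 1) T‖ ≤ t then st n
      else (n + 1, (st n).2 + blk P (st n).1 n T) := fun n => rfl
  refine ⟨fun n => (st n).1, fun n => (st n).2, rfl, rfl, fun n => ?_⟩
  by_cases h : ‖blk P (st n).1 (n + 1) T‖ ≤ t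
  · left
    have h1 := hst n
    rw [if_pos h] at h1
    exact ⟨by rw [h1], by rw [h1], h⟩
  · right
    have h1 := hst n
    rw [if_neg h] at h1
    exact ⟨by rw [h1], by rw [h1], (not_le.1 h).le⟩

namespace IsProc

variable {P : ℕ → H →L[𝕜] H} (hP : ProjSys P) {t : ℝ} {T : H →L[𝕜] H} {M : ℕ → ℕ}
  {Y : ℕ → H →L[𝕜] H} (h : IsProc P t T M Y)

include h in
lemma M_le (n : ℕ) : M n ≤ n := by
  induction n with
  | zero => rw [h.M0]
  | succ n ih =>
    rcases h.step n with h1 | h1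
    · rw [h1.1]; omega
    · rw [h1.1]

lemma _root_.Pool.Agent.Helper41.WNC.blk_self (P : ℕ → H →L[𝕜] H) (n : ℕ) (T : H →L[𝕜] H) :
    blk P n n T = 0 := by
  unfold blk; simp

include h in
lemma norm_blk_le (ht : 0 ≤ t) (n : ℕ) : ‖blk P (M n) n T‖ ≤ t := by
  cases n with
  | zero => rw [h.M0, blk_self]; simpa using ht
  | succ n =>
    rcases h.step n with h1 | h1
    · rw [h1.1]; exact h1.2.2
    · rw [h1.1, blk_self]; simpa using ht

include hP h

omit h in
lemma _root_.Pool.Agent.Helper41.WNC.mul_blk {m n k : ℕ} (hmn : m ≤ n) (hnk : n ≤ k) (T : H →L[𝕜] H) :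
    P k * blk P m n T = blk P m n T := by
  unfold blk
  have h1 : P k * (P n - P m) = P n - P m := by
    rw [mul_sub, hP.mul_of_le' hnk, hP.mul_of_le' (hmn.trans hnk)]
  rw [← mul_assoc, ← mul_assoc, h1]

omit h in
lemma _root_.Pool.Agent.Helper41.WNC.blk_mul {m n k : ℕ} (hmn : m ≤ n) (hnk : n ≤ k) (T : H →L[𝕜] H) :
    blk P m n T * P k = blk P m n T := by
  unfold blk
  have h1 : (P n - P m) * P k = P n - P m := by
    rw [sub_mul, hP.mul_of_le hnk, hP.mul_of_le (hmn.trans hnk)]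
  rw [mul_assoc, h1]

lemma left (n : ℕ) : P (M n) * Y n = Y n := by
  induction n with
  | zero => rw [h.Y0]; simp
  | succ n ih =>
    rcases h.step n with h1 | h1
    · rw [h1.1, h1.2.1]; exact ih
    · rw [h1.1, h1.2.1, mul_add, mul_blk hP (h.M_le n) (Nat.le_succ n)]
      congr 1
      conv_lhs => rw [← ih]
      rw [← mul_assoc, hP.mul_of_le' ((h.M_le n).trans (Nat.le_succ n))]
      exact ih

lemma right (n : ℕ) : Y n * P (M n) = Y n := by
  induction n with
  | zero => rw [h.Y0]; simp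
  | succ n ih =>
    rcases h.step n with h1 | h1
    · rw [h1.1, h1.2.1]; exact ih
    · rw [h1.1, h1.2.1, add_mul, blk_mul hP (h.M_le n) (Nat.le_succ n)]
      congr 1
      conv_lhs => rw [← ih]
      rw [mul_assoc, hP.mul_of_le ((h.M_le n).trans (Nat.le_succ n))]
      exact ih

lemma left_of_le {n k : ℕ} (hk : M n ≤ k) : P k * Y n = Y n := by
  rw [← h.left hP n, ← mul_assoc, hP.mul_of_le' hk]

lemma right_of_le {n k : ℕ} (hk : M n ≤ k) : Y n * P k = Y n := by
  rw [← h.right hP n, mul_assoc, hP.mul_of_le hk]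

lemma norm_sum_le' (ht : 0 ≤ t) (n : ℕ) (hY : ‖Y n‖ ≤ t) : ‖Y n + blk P (M n) n T‖ ≤ t := by
  have hle := h.M_le n
  refine norm_add_le_of_blocks ht (hP.symm (M n)) (hP.idem (M n)) (hP.symm_diff (M n) n)
    (hP.idem_diff hle) ?_ (h.left hP n) (h.right hP n) ?_ ?_ hY (h.norm_blk_le ht n)
  · rw [sub_mul, hP.mul_of_le' hle, hP.idem, sub_self]
  · unfold blk
    rw [← mul_assoc, ← mul_assoc, hP.idem_diff hle]
  · unfold blk
    rw [mul_assoc, hP.idem_diff hle]

lemma norm_Y_le (ht : 0 ≤ t) (n : ℕ) : ‖Y n‖ ≤ t := by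
  induction n with
  | zero => rw [h.Y0]; simpa using ht
  | succ n ih =>
    rcases h.step n with h1 | h1
    · rw [h1.2.1]; exact ih
    · rw [h1.2.1]; exact h.norm_sum_le' hP ht n ih

lemma norm_sum_le (ht : 0 ≤ t) (n : ℕ) : ‖Y n + blk P (M n) n T‖ ≤ t :=
  h.norm_sum_le' hP ht n (h.norm_Y_le hP ht n)

omit h in
lemma _root_.Pool.Agent.Helper41.WNC.corner_blk {m n k : ℕ} (hmn : m ≤ n) (hnk : n ≤ k) (T : H →L[𝕜] H) :
    P n * blk P m k T * P n = blk P m n T := by
  unfold blk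
  have h1 : P n * (P k - P m) = P n - P m := by
    rw [mul_sub, hP.mul_of_le hnk, hP.mul_of_le' hmn]
  have h2 : (P k - P m) * P n = P n - P m := by
    rw [sub_mul, hP.mul_of_le' hnk, hP.mul_of_le hmn]
  calc P n * ((P k - P m) * T * (P k - P m)) * P n
      = (P n * (P k - P m)) * T * ((P k - P m) * P n) := by noncomm_ring
    _ = _ := by rw [h1, h2]

lemma corner_succ (n : ℕ) : P n * (Y (n + 1) + blk P (M (n + 1)) (n + 1) T) * P n =
    Y n + blk P (M n) n T := by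
  have hle := h.M_le n
  rcases h.step n with h1 | h1
  · rw [h1.1, h1.2.1, mul_add, add_mul, h.left_of_le hP hle, h.right_of_le hP hle,
      corner_blk hP hle (Nat.le_succ n)]
  · rw [h1.1, h1.2.1, blk_self, add_zero, mul_add, add_mul, h.left_of_le hP hle,
      h.right_of_le hP hle, corner_blk hP hle le_rfl]

lemma corner {m n : ℕ} (hmn : m ≤ n) : P m * (Y n + blk P (M n) n T) * P m =
    Y m + blk P (M m) m T := by
  induction n, hmn using Nat.le_induction with
  | base =>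
    have hle := h.M_le m
    rw [mul_add, add_mul, h.left_of_le hP hle, h.right_of_le hP hle, corner_blk hP hle le_rfl]
  | succ n hmn ih =>
    rw [← ih, ← h.corner_succ hP n]
    have h1 : P m * P n = P m := hP.mul_of_le hmn
    have h2 : P n * P m = P m := hP.mul_of_le' hmn
    calc P m * (Y (n + 1) + blk P (M (n + 1)) (n + 1) T) * P m
        = (P m * P n) * (Y (n + 1) + blk P (M (n + 1)) (n + 1) T) * (P n * P m) := by rw [h1, h2]
      _ = _ := by noncomm_ring

/-- If a tail compression of `T` has norm `< t` then the process is eventually constant. -/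
lemma eventually_const {K : ℕ} (hK : ‖(1 - P K) * T * (1 - P K)‖ < t) :
    ∃ n₀ m : ℕ, ∃ y : H →L[𝕜] H, m ≤ n₀ ∧ ∀ n, n₀ ≤ n → M n = m ∧ Y n = y := by
  -- no stop after `K`
  have key : ∀ n, K ≤ M n → M (n + 1) = M n ∧ Y (n + 1) = Y n := by
    intro n hn
    rcases h.step n with h1 | h1
    · exact ⟨h1.1, h1.2.1⟩
    · exfalso
      have hle : M n ≤ n + 1 := (h.M_le n).trans (Nat.le_succ n)
      have hKn : K ≤ n + 1 := hn.trans hle
      have e1 : (P (n + 1) - P (M n)) * (1 - P K) = P (n + 1) - P (M n) := by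
        rw [mul_sub, mul_one, sub_mul, hP.mul_of_le' hKn, hP.mul_of_le' hn]; simp
      have e2 : (1 - P K) * (P (n + 1) - P (M n)) = P (n + 1) - P (M n) := by
        rw [sub_mul, one_mul, mul_sub, hP.mul_of_le hKn, hP.mul_of_le hn]; simp
      have e3 : blk P (M n) (n + 1) T = (P (n + 1) - P (M n)) * ((1 - P K) * T * (1 - P K)) *
          (P (n + 1) - P (M n)) := by
        unfold blk
        calc (P (n + 1) - P (M n)) * T * (P (n + 1) - P (M n))
            = ((P (n + 1) - P (M n)) * (1 - P K)) * T * ((1 - P K) * (P (n + 1) - P (M n))) := by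
              rw [e1, e2]
          _ = _ := by noncomm_ring
      have h4 : ‖blk P (M n) (n + 1) T‖ ≤ ‖(1 - P K) * T * (1 - P K)‖ := by
        rw [e3]
        calc _ ≤ ‖(P (n + 1) - P (M n)) * ((1 - P K) * T * (1 - P K))‖ * ‖P (n + 1) - P (M n)‖ :=
              norm_mul_le _ _
          _ ≤ (‖P (n + 1) - P (M n)‖ * ‖(1 - P K) * T * (1 - P K)‖) * ‖P (n + 1) - P (M n)‖ := by
              gcongr; exact norm_mul_le _ _
          _ ≤ (1 * ‖(1 - P K) * T * (1 - P K)‖) * 1 := by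
              gcongr
              · exact hP.norm_diff hle
              · exact hP.norm_diff hle
          _ = _ := by ring
      linarith [h1.2.2]
  by_cases hex : ∃ n, K ≤ n ∧ M (n + 1) = n + 1
  · obtain ⟨n, hn, hn2⟩ := hex
    refine ⟨n + 1, n + 1, Y (n + 1), le_rfl, fun k hk => ?_⟩
    induction k, hk using Nat.le_induction with
    | base => exact ⟨hn2, rfl⟩
    | succ k hk ih =>
      obtain ⟨h5, h6⟩ := key k (by rw [ih.1]; omega)
      exact ⟨h5.trans ih.1, h6.trans ih.2⟩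
  · push Not at hex
    refine ⟨K, M K, Y K, h.M_le K, fun k hk => ?_⟩
    induction k, hk using Nat.le_induction with
    | base => exact ⟨rfl, rfl⟩
    | succ k hk ih =>
      rcases h.step k with h1 | h1
      · exact ⟨h1.1.trans ih.1, h1.2.1.trans ih.2⟩
      · exact absurd h1.1 (hex k hk)

end IsProc

end Pool.Agent.Helper41.WNC
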