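import Mathlib
import Pool.Agent.Helper41.WNCProc

open Filter Topology Set InnerProductSpace
open scoped ENNReal NNReal

namespace Pool.Agent.Helper41.WNC

variable {𝕜 : Type*} [RCLike 𝕜] {H : Type*} [NormedAddCommGroup H] [InnerProductSpace 𝕜 H]

lemma corner_eq' {k : ℕ} {e : Fin k → H} {Q : H →L[𝕜] H}
    (he : ∀ x, Q x = ∑ i, inner 𝕜 (e i) x • e i) (T : H →L[𝕜] H) :
    Q * T * Q = ∑ i, ∑ j, (inner 𝕜 (e i) (T (e j)) : 𝕜) • (InnerProductSpace.rankOne 𝕜 (e i) (e j)) := by
  ext x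
  simp only [mul_apply_eq_comp, sum_apply, smul_apply, InnerProductSpace.rankOne_apply]
  rw [he (T (Q x))]
  refine Finset.sum_congr rfl fun i _ => ?_
  rw [he x, map_sum, inner_sum, Finset.sum_smul]
  refine Finset.sum_congr rfl fun j _ => ?_
  rw [map_smul, inner_smul_right, smul_smul, mul_comm]

variable {P : ℕ → H →L[𝕜] H} (hP : ProjSys P)

include hP

/-- weak operator convergence gives norm convergence of finite corners -/
lemma ProjSys.tendsto_corner {ι : Type*} {𝓕 : Filter ι} {T : ι → H →L[𝕜] H} {T' : H →L[𝕜] H}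
    (hT : ∀ u v : H, Tendsto (fun i => (inner 𝕜 v (T i u) : 𝕜)) 𝓕 (𝓝 (inner 𝕜 v (T' u)))) (n : ℕ) :
    Tendsto (fun i => P n * T i * P n) 𝓕 (𝓝 (P n * T' * P n)) := by
  obtain ⟨k, e, he⟩ := hP.finrank n
  rw [corner_eq' he]
  simp_rw [corner_eq' he]
  refine tendsto_finsetSum _ fun i _ => tendsto_finsetSum _ fun j _ => ?_
  exact (hT (e j) (e i)).smul_const _

lemma ProjSys.tendsto_blk {ι : Type*} {𝓕 : Filter ι} {T : ι → H →L[𝕜] H} {T' : H →L[𝕜] H}
    (hT : ∀ u v : H, Tendsto (fun i => (inner 𝕜 v (T i u) : 𝕜)) 𝓕 (𝓝 (inner 𝕜 v (T' u))))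
    {m n : ℕ} (hmn : m ≤ n) :
    Tendsto (fun i => blk P m n (T i)) 𝓕 (𝓝 (blk P m n T')) := by
  have h1 : ∀ S : H →L[𝕜] H, blk P m n S = (P n - P m) * (P n * S * P n) * (P n - P m) := by
    intro S
    unfold blk
    have e1 : (P n - P m) * P n = P n - P m := by
      rw [sub_mul, hP.idem, hP.mul_of_le hmn]
    have e2 : P n * (P n - P m) = P n - P m := by
      rw [mul_sub, hP.idem, hP.mul_of_le' hmn]
    calc (P n - P m) * S * (P n - P m) = ((P n - P m) * P n) * S * (P n * (P n - P m)) := by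
          rw [e1, e2]
      _ = _ := by noncomm_ring
  simp_rw [h1]
  exact ((hP.tendsto_corner hT n).const_mul _).mul_const _

/-- Limits of stopping processes along an ultrafilter. -/
lemma IsProc.limit {ι : Type*} (𝓕 : Ultrafilter ι) {T : ι → H →L[𝕜] H} {T' : H →L[𝕜] H}
    (hT : ∀ u v : H, Tendsto (fun i => (inner 𝕜 v (T i u) : 𝕜)) 𝓕 (𝓝 (inner 𝕜 v (T' u))))
    {t : ℝ} {M : ι → ℕ → ℕ} {Y : ι → ℕ → H →L[𝕜] H} (h : ∀ i, IsProc P t (T i) (M i) (Y i)) :
    ∃ M' Y', IsProc P t T' M' Y' ∧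
      ∀ n, (∀ᶠ i in 𝓕, M i n = M' n) ∧ Tendsto (fun i => Y i n) 𝓕 (𝓝 (Y' n)) := by
  classical
  -- limits of the stopping times
  have hM : ∀ n, ∃ m, m ≤ n ∧ ∀ᶠ i in 𝓕, M i n = m := by
    intro n
    have h1 : ∀ᶠ i in 𝓕, ∃ m ∈ (Finset.range (n + 1) : Finset ℕ), M i n = m :=
      Eventually.of_forall fun i => ⟨M i n, Finset.mem_range.2 (Nat.lt_succ_of_le ((h i).M_le n)), rfl⟩
    have h2 : ∃ m ∈ (Finset.range (n + 1) : Finset ℕ), ∀ᶠ i in 𝓕, M i n = m := by
      by_contra hcon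
      push Not at hcon
      have h3 : ∀ᶠ i in 𝓕, ∀ m ∈ (Finset.range (n + 1) : Finset ℕ), M i n ≠ m := by
        rw [Filter.eventually_all_finset]
        intro m hm
        exact Ultrafilter.eventually_not.2 (by simpa using hcon m hm)
      obtain ⟨i, ⟨m, hm, hmi⟩, hi2⟩ := (h1.and h3).exists
      exact hi2 m hm hmi
    obtain ⟨m, hm, hm2⟩ := h2
    exact ⟨m, Nat.lt_succ_iff.1 (Finset.mem_range.1 hm), hm2⟩
  choose M' hM'le hM' using hM
  -- limits of `Y`
  have hY : ∀ n, ∃ y, Tendsto (fun i => Y i n) 𝓕 (𝓝 y) := by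
    intro n
    induction n with
    | zero => exact ⟨0, by simp_rw [fun i => (h i).Y0]; exact tendsto_const_nhds⟩
    | succ n ih =>
      obtain ⟨y, hy⟩ := ih
      have h1 : ∀ᶠ i in 𝓕, (Y i (n + 1) = Y i n) ∨
          (Y i (n + 1) = Y i n + blk P (M' n) n (T i)) := by
        filter_upwards [hM' n] with i hi
        rcases (h i).step n with h2 | h2
        · left; exact h2.2.1
        · right; rw [h2.2.1, hi]
      rcases Ultrafilter.eventually_or.1 h1 with h2 | h2
      · exact ⟨y, hy.congr' (h2.mono fun i hi => hi.symm)⟩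
      · refine ⟨y + blk P (M' n) n T', ?_⟩
        refine (hy.add (hP.tendsto_blk hT (hM'le n))).congr' (h2.mono fun i hi => hi.symm)
  choose Y' hY' using hY
  refine ⟨M', Y', ⟨?_, ?_, ?_⟩, fun n => ⟨hM' n, hY' n⟩⟩
  · have := hM'le 0; omega
  · refine tendsto_nhds_unique (hY' 0) ?_
    simp_rw [fun i => (h i).Y0]; exact tendsto_const_nhds
  · intro n
    have h1 := Ultrafilter.eventually_or.1 (Eventually.of_forall (f := (𝓕 : Filter ι)) fun i => (h i).step n)
    have hb : Tendsto (fun i => ‖blk P (M' n) (n + 1) (T i)‖) 𝓕 (𝓝 ‖blk P (M' n) (n + 1) T'‖) :=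
      (hP.tendsto_blk hT ((hM'le n).trans (Nat.le_succ n))).norm
    rcases h1 with h2 | h2
    · left
      refine ⟨?_, ?_, ?_⟩
      · obtain ⟨i, hi1, hi2, hi3⟩ := ((hM' (n + 1)).and ((hM' n).and h2)).exists
        rw [← hi1, ← hi2]; exact hi3.1
      · refine tendsto_nhds_unique (hY' (n + 1)) ?_
        exact (hY' n).congr' (h2.mono fun i hi => hi.2.1.symm)
      · refine le_of_tendsto hb ?_
        filter_upwards [h2, hM' n] with i hi hi2
        rw [← hi2]; exact hi.2.2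
    · right
      refine ⟨?_, ?_, ?_⟩
      · obtain ⟨i, hi1, hi2, hi3⟩ := ((hM' (n + 1)).and ((hM' n).and h2)).exists
        rw [← hi1]; exact hi3.1
      · refine tendsto_nhds_unique (hY' (n + 1)) ?_
        refine ((hY' n).add (hP.tendsto_blk hT (hM'le n))).congr' ?_
        filter_upwards [h2, hM' n] with i hi hi2
        rw [hi.2.1, hi2]
      · refine ge_of_tendsto hb ?_
        filter_upwards [h2, hM' n] with i hi hi2
        rw [← hi2]; exact hi.2.2

/-- strong convergence of the corners of a fixed operator -/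
lemma ProjSys.tendsto_corner_apply (T : H →L[𝕜] H) (x : H) :
    Tendsto (fun n => (P n * T * P n) x) atTop (𝓝 (T x)) := by
  have h1 : Tendsto (fun n => T (P n x)) atTop (𝓝 (T x)) := (T.continuous.tendsto x).comp (hP.tendsto x)
  have h2 : Tendsto (fun n => P n (T x)) atTop (𝓝 (T x)) := hP.tendsto (T x)
  have h3 : Tendsto (fun n => P n (T (P n x) - T x)) atTop (𝓝 0) := by
    have h4 : Tendsto (fun n => ‖T (P n x) - T x‖) atTop (𝓝 0) := by
      rw [← tendsto_iff_norm_sub_tendsto_zero]; exact h1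
    refine squeeze_zero_norm (fun n => ?_) h4
    calc ‖P n (T (P n x) - T x)‖ ≤ ‖P n‖ * ‖T (P n x) - T x‖ := (P n).le_opNorm _
      _ ≤ 1 * ‖T (P n x) - T x‖ := by gcongr; exact hP.norm_le n
      _ = _ := one_mul _
  have h5 := h3.add h2
  rw [zero_add] at h5
  refine h5.congr fun n => ?_
  rw [← map_add]; simp

lemma ProjSys.norm_le_of_corners {T : H →L[𝕜] H} {t : ℝ} (ht : 0 ≤ t)
    (h : ∀ n, ‖P n * T * P n‖ ≤ t) : ‖T‖ ≤ t := by
  apply ContinuousLinearMap.opNorm_le_bound _ ht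
  intro x
  refine le_of_tendsto (hP.tendsto_corner_apply T x).norm (Eventually.of_forall fun n => ?_)
  exact ((P n * T * P n).le_opNorm x).trans (by gcongr; exact h n)

lemma ProjSys.eq_of_corners {S T : H →L[𝕜] H} (h : ∀ n, P n * S * P n = P n * T * P n) : S = T := by
  ext x
  refine tendsto_nhds_unique (hP.tendsto_corner_apply S x) ?_
  simp_rw [h]
  exact hP.tendsto_corner_apply T x

/-- The full block-diagonal truncation attached to an eventually constant process. -/
lemma IsProc.corner_full {t : ℝ} {T : H →L[𝕜] H} {M : ℕ → ℕ} {Y : ℕ → H →L[𝕜] H}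
    (h : IsProc P t T M Y) {n₀ m : ℕ} {y : H →L[𝕜] H} (hm : m ≤ n₀)
    (hc : ∀ n, n₀ ≤ n → M n = m ∧ Y n = y) (n : ℕ) :
    P n * (y + (1 - P m) * T * (1 - P m)) * P n = Y n + blk P (M n) n T := by
  -- large `n`
  have key : ∀ k, n₀ ≤ k → P k * (y + (1 - P m) * T * (1 - P m)) * P k = Y k + blk P (M k) k T := by
    intro k hk
    obtain ⟨h1, h2⟩ := hc k hk
    have hmk : m ≤ k := hm.trans hk
    rw [h1, h2, mul_add, add_mul]
    congr 1
    · rw [← h2, h.left_of_le hP (h.M_le k), h.right_of_le hP (h.M_le k)]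
    · unfold blk
      have e1 : P k * (1 - P m) = P k - P m := by
        rw [mul_sub, mul_one, hP.mul_of_le' hmk]
      have e2 : (1 - P m) * P k = P k - P m := by
        rw [sub_mul, one_mul, hP.mul_of_le hmk]
      calc P k * ((1 - P m) * T * (1 - P m)) * P k = (P k * (1 - P m)) * T * ((1 - P m) * P k) := by
            noncomm_ring
        _ = _ := by rw [e1, e2]
  by_cases hn : n₀ ≤ n
  · exact key n hn
  · push Not at hn
    rw [← h.corner hP hn.le, ← key n₀ le_rfl]
    have e1 : P n * P n₀ = P n := hP.mul_of_le hn.le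
    have e2 : P n₀ * P n = P n := hP.mul_of_le' hn.le
    calc P n * (y + (1 - P m) * T * (1 - P m)) * P n
        = (P n * P n₀) * (y + (1 - P m) * T * (1 - P m)) * (P n₀ * P n) := by rw [e1, e2]
      _ = _ := by noncomm_ring

end Pool.Agent.Helper41.WNC
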