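import Mathlib
import Pool.Agent.Helper41.WNCLimit

open Filter Topology Set InnerProductSpace
open scoped ENNReal NNReal

namespace Pool.Agent.Helper41.WNC

section Bidual

variable {𝕜 : Type*} [RCLike 𝕜] {X : Type*} [NormedAddCommGroup X] [NormedSpace 𝕜 X]

/-- Banach–Alaoglu along an ultrafilter. -/
lemma exists_bidual_limit {ι : Type*} (𝓕 : Ultrafilter ι) {T : ι → X} {R : ℝ}
    (hR : ∀ᶠ i in 𝓕, ‖T i‖ ≤ R) :
    ∃ b : StrongDual 𝕜 (StrongDual 𝕜 X), ∀ φ : StrongDual 𝕜 X,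
      Tendsto (fun i => φ (T i)) 𝓕 (𝓝 (b φ)) := by
  have hc := isCompact_ballW (𝕜 := 𝕜) (X := X) R
  have hle : ((𝓕.map (fun i => toBidual 𝕜 (T i)) : Ultrafilter _) : Filter _) ≤ 𝓟 (ballW 𝕜 X R) := by
    rw [Filter.le_principal_iff]
    refine Filter.mem_map.2 (hR.mono fun i hi => ?_)
    exact (norm_inclusion_le (T i)).trans hi
  obtain ⟨b, hb, hb2⟩ := hc.ultrafilter_le_nhds _ hle
  refine ⟨WeakDual.toStrongDual b, fun φ => ?_⟩
  have h3 : Tendsto (fun i => toBidual 𝕜 (T i)) 𝓕 (𝓝 b) := hb2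
  exact ((WeakDual.eval_continuous (𝕜 := 𝕜) φ).tendsto b).comp h3

lemma exists_near_of_infEDist_lt {b : StrongDual 𝕜 (StrongDual 𝕜 X)} {t : ℝ} (ht : 0 < t)
    (h : Metric.infEDist b (canon 𝕜 X) < ENNReal.ofReal t) :
    ∃ S : X, ‖b - NormedSpace.inclusionInDoubleDual 𝕜 X S‖ < t := by
  obtain ⟨_, ⟨S, rfl⟩, hS⟩ := Metric.infEDist_lt_iff.1 h
  rw [edist_dist, dist_eq_norm] at hS
  exact ⟨S, (ENNReal.ofReal_lt_ofReal_iff ht).1 hS⟩

end Bidual

variable {𝕜 : Type*} [RCLike 𝕜] {H : Type*} [NormedAddCommGroup H] [InnerProductSpace 𝕜 H]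
  [CompleteSpace H]

variable {P : ℕ → H →L[𝕜] H} (hP : ProjSys P)

include hP

lemma ProjSys.exists_tail_lt {T : H →L[𝕜] H} {S : H →L[𝕜] H} (hS : IsCompactOperator S) {t : ℝ}
    (h : ‖T - S‖ < t) : ∃ K, ‖(1 - P K) * T * (1 - P K)‖ < t := by
  have hpos : 0 < t - ‖T - S‖ := by linarith
  obtain ⟨K, hK⟩ := (hP.eventually_norm_mul_sub_lt hS hpos).exists
  refine ⟨K, ?_⟩
  have h1 : (1 - P K) * T * (1 - P K) = (1 - P K) * (T - S) * (1 - P K) - (P K * S - S) * (1 - P K) := by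
    noncomm_ring
  rw [h1]
  have h2 : ‖(1 - P K) * (T - S) * (1 - P K)‖ ≤ ‖T - S‖ := by
    calc _ ≤ ‖(1 - P K) * (T - S)‖ * ‖1 - P K‖ := norm_mul_le _ _
      _ ≤ (‖1 - P K‖ * ‖T - S‖) * ‖1 - P K‖ := by gcongr; exact norm_mul_le _ _
      _ ≤ (1 * ‖T - S‖) * 1 := by
        gcongr
        · exact hP.norm_compl K
        · exact hP.norm_compl K
      _ = _ := by ring
  have h3 : ‖(P K * S - S) * (1 - P K)‖ ≤ ‖P K * S - S‖ := by
    calc _ ≤ ‖P K * S - S‖ * ‖1 - P K‖ := norm_mul_le _ _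
      _ ≤ ‖P K * S - S‖ * 1 := by gcongr; exact hP.norm_compl K
      _ = _ := mul_one _
  calc _ ≤ ‖(1 - P K) * (T - S) * (1 - P K)‖ + ‖(P K * S - S) * (1 - P K)‖ := norm_sub_le _ _
    _ < t := by linarith

/-- The block-diagonal truncation of a compact operator at level `t`. -/
lemma exists_truncation (t : ℝ) (ht : 0 < t) (S : KH 𝕜 H) :
    ∃ (M : ℕ → ℕ) (Y : ℕ → H →L[𝕜] H) (x : KH 𝕜 H), IsProc P t S.1 M Y ∧ ‖x‖ ≤ t ∧
      ∀ n, P n * x.1 * P n = Y n + blk P (M n) n S.1 := by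
  obtain ⟨M, Y, h⟩ := exists_isProc P t S.1
  obtain ⟨K, hK⟩ := hP.exists_tail_lt (T := S.1) (S := S.1) S.2 (t := t) (by simpa using ht)
  obtain ⟨n₀, m, y, hm, hc⟩ := h.eventually_const hP hK
  have hfull := h.corner_full hP hm hc
  have hy : P m * y = y := by
    obtain ⟨h1, h2⟩ := hc n₀ le_rfl
    have := h.left hP n₀
    rwa [h1, h2] at this
  have hycomp : IsCompactOperator y := by
    rw [← hy]
    exact (hP.compact m).comp_clm y
  have hxcomp : (y + (1 - P m) * S.1 * (1 - P m)) ∈ compactOperator (RingHom.id 𝕜) H H := by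
    refine Submodule.add_mem _ hycomp ?_
    exact (rmul (lmul (1 - P m) S) (1 - P m)).2
  refine ⟨M, Y, ⟨y + (1 - P m) * S.1 * (1 - P m), hxcomp⟩, h, ?_, hfull⟩
  change ‖y + (1 - P m) * S.1 * (1 - P m)‖ ≤ t
  apply hP.norm_le_of_corners ht.le
  intro n
  rw [hfull n]
  exact h.norm_sum_le hP ht.le n

/-- Key step: if `wk A < t` then `omega A ≤ t`. -/
lemma omega_le_of_wk_lt {A : Set (KH 𝕜 H)} (hA : Bornology.IsBounded A) {t : ℝ} (ht : 0 < t)
    (hwk : wk 𝕜 A < ENNReal.ofReal t) : omega 𝕜 A ≤ ENNReal.ofReal t := by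
  classical
  choose M Y x hproc hxt hx using exists_truncation hP t ht
  obtain ⟨R, hR⟩ := hA.exists_norm_le
  set Ψ : KH 𝕜 H → KH 𝕜 H := fun S => S - x S with hΨ
  -- the set
  set C : Set (WeakSpace 𝕜 (KH 𝕜 H)) := closure (toWeakSpace 𝕜 (KH 𝕜 H) '' (Ψ '' A)) with hC
  have hcompact : IsCompact C := by
    apply NormedSpace.isCompact_closure_of_isBounded
    · have : (toWeakSpace 𝕜 (KH 𝕜 H)) ⁻¹' (toWeakSpace 𝕜 (KH 𝕜 H) '' (Ψ '' A)) = Ψ '' A :=
        Set.preimage_image_eq _ (toWeakSpace 𝕜 (KH 𝕜 H)).injective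
      rw [this]
      rw [isBounded_iff_forall_norm_le]
      refine ⟨R + t, ?_⟩
      rintro _ ⟨S, hS, rfl⟩
      exact (norm_sub_le _ _).trans (add_le_add (hR S hS) (hxt S))
    · intro a ha
      have ha' : WeakDual.toStrongDual a ∈ wstarClosure 𝕜 (Ψ '' A) := by
        have h1 : (NormedSpace.inclusionInDoubleDualWeak 𝕜 (KH 𝕜 H)) '' (toWeakSpace 𝕜 (KH 𝕜 H) '' (Ψ '' A))
            = toBidual 𝕜 '' (Ψ '' A) := by
          rw [Set.image_image]
          rfl
        rw [h1] at ha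
        exact ha
      set a' := WeakDual.toStrongDual a with ha'def
      obtain ⟨𝓕, hA𝓕, hlim⟩ := exists_ultrafilter_of_mem_wstarClosure ha'
      -- the limit of the original operators
      obtain ⟨b, hb⟩ := exists_bidual_limit (𝕜 := 𝕜) 𝓕 (T := fun S : KH 𝕜 H => S) (R := R)
        (by filter_upwards [hA𝓕] with S hS using hR S hS)
      have hbmem : b ∈ wstarClosure 𝕜 A := mem_wstarClosure_of_ultrafilter 𝓕 hA𝓕 hb
      have hbdist : Metric.infEDist b (canon 𝕜 (KH 𝕜 H)) < ENNReal.ofReal t :=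
        (le_iSup₂ (f := fun a (_ : a ∈ wstarClosure 𝕜 A) => Metric.infEDist a (canon 𝕜 (KH 𝕜 H)))
          b hbmem).trans_lt hwk
      obtain ⟨S₀, hS₀⟩ := exists_near_of_infEDist_lt ht hbdist
      have h2 : ‖opOf b - S₀.1‖ < t := by
        rw [← opOf_sub_inclusion]
        exact (norm_opOf_le _).trans_lt hS₀
      obtain ⟨K, hK⟩ := hP.exists_tail_lt S₀.2 h2
      -- limit process
      have hTconv : ∀ u v : H, Tendsto (fun S : KH 𝕜 H => (inner 𝕜 v (S.1 u) : 𝕜)) 𝓕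
          (𝓝 (inner 𝕜 v (opOf b u))) := by
        intro u v
        rw [inner_opOf]
        exact hb (coef u v)
      obtain ⟨M', Y', hproc', hlim'⟩ := IsProc.limit hP 𝓕 hTconv hproc
      obtain ⟨n₀, m, y, hm, hc⟩ := hproc'.eventually_const hP hK
      have hfull := hproc'.corner_full hP hm hc
      -- the limit operator
      set T' : H →L[𝕜] H := opOf b - (y + (1 - P m) * opOf b * (1 - P m)) with hT'
      have hy : P m * y = y := by
        obtain ⟨h1, h2⟩ := hc n₀ le_rfl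
        have := hproc'.left hP n₀
        rwa [h1, h2] at this
      have hT'comp : IsCompactOperator T' := by
        have h3 : T' = P m * opOf b + (1 - P m) * opOf b * P m - P m * y := by
          rw [hT', hy]; noncomm_ring
        rw [h3]
        refine IsCompactOperator.sub (IsCompactOperator.add ?_ ?_) ?_
        · exact (hP.compact m).comp_clm (opOf b)
        · exact (hP.compact m).clm_comp ((1 - P m) * opOf b)
        · exact (hP.compact m).comp_clm y
      -- corners of `opOf a'` agree with those of `T'`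
      have hcorn : ∀ n, P n * opOf a' * P n = P n * T' * P n := by
        intro n
        have h4 : Tendsto (fun S : KH 𝕜 H => P n * (Ψ S).1 * P n) 𝓕 (𝓝 (P n * opOf a' * P n)) := by
          apply hP.tendsto_corner
          intro u v
          rw [inner_opOf]
          exact hlim (coef u v)
        have h5 : Tendsto (fun S : KH 𝕜 H => P n * S.1 * P n - (Y S n + blk P (M' n) n S.1)) 𝓕
            (𝓝 (P n * opOf b * P n - (Y' n + blk P (M' n) n (opOf b)))) :=
          (hP.tendsto_corner hTconv n).sub ((hlim' n).2.add (hP.tendsto_blk hTconv (hproc'.M_le n)))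
        have h6 : ∀ᶠ S in 𝓕, P n * S.1 * P n - (Y S n + blk P (M' n) n S.1) = P n * (Ψ S).1 * P n := by
          filter_upwards [(hlim' n).1] with S hS
          rw [← hS, ← hx S n, hΨ]
          change _ = P n * (S.1 - (x S).1) * P n
          noncomm_ring
        have h7 := tendsto_nhds_unique (h5.congr' h6) h4
        rw [← h7, hT', ← hfull n]
        noncomm_ring
      have hopT' : opOf a' = T' := hP.eq_of_corners hcorn
      obtain ⟨S', hS'⟩ : ∃ S' : KH 𝕜 H, S'.1 = T' := ⟨⟨T', hT'comp⟩, rfl⟩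
      refine ⟨toWeakSpace 𝕜 (KH 𝕜 H) S', ?_⟩
      have h8 : a' - NormedSpace.inclusionInDoubleDual 𝕜 (KH 𝕜 H) S' = 0 := by
        apply hP.bidual_eq_zero
        intro u v
        rw [← inner_opOf, opOf_sub_inclusion, hopT', hS', sub_self, zero_apply, inner_zero_right]
      have h9 : a' = NormedSpace.inclusionInDoubleDual 𝕜 (KH 𝕜 H) S' :=
        ContinuousLinearMap.ext fun φ => sub_eq_zero.1 (DFunLike.congr_fun h8 φ)
      have h10 : a = StrongDual.toWeakDual a' := rfl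
      rw [h10, h9]
      rfl
  -- the weakly compact set
  set K₀ : Set (KH 𝕜 H) := (toWeakSpace 𝕜 (KH 𝕜 H)) ⁻¹' C ∪ {0} with hK₀
  have hK₀c : IsWeaklyCompact 𝕜 K₀ := by
    unfold IsWeaklyCompact
    rw [hK₀, Set.image_union, Set.image_preimage_eq _ (toWeakSpace 𝕜 (KH 𝕜 H)).surjective,
      Set.image_singleton]
    exact hcompact.union isCompact_singleton
  have hK₀n : K₀.Nonempty := ⟨0, Or.inr rfl⟩
  refine (iInf₂_le K₀ ⟨hK₀n, hK₀c⟩).trans ?_
  refine iSup₂_le fun S hS => ?_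
  have h0 : toWeakSpace 𝕜 (KH 𝕜 H) (Ψ S) ∈ C :=
    subset_closure (Set.mem_image_of_mem _ (Set.mem_image_of_mem _ hS))
  have h1 : Ψ S ∈ K₀ := Or.inl h0
  refine (Metric.infEDist_le_edist_of_mem h1).trans ?_
  rw [edist_dist, dist_eq_norm]
  apply ENNReal.ofReal_le_ofReal
  rw [hΨ]
  simp only [sub_sub_cancel]
  exact hxt S

end Pool.Agent.Helper41.WNC
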