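import Mathlib
import Pool.Agent.Helper41.WNCSep

open Filter Topology Set InnerProductSpace
open scoped ENNReal NNReal

namespace Pool.Agent.Helper41.WNC

section Gen

variable {𝕜 : Type*} [RCLike 𝕜] {X : Type*} [NormedAddCommGroup X] [NormedSpace 𝕜 X]

lemma eval_eq_of_mem_clust {x : ℕ → X} {g : StrongDual 𝕜 (StrongDual 𝕜 X)} (hg : g ∈ clust 𝕜 x)
    {φ : StrongDual 𝕜 X} {c : 𝕜} (h : Tendsto (fun n => φ (x n)) atTop (𝓝 c)) : g φ = c := by
  have h3 : MapClusterPt (StrongDual.toWeakDual g) atTop (fun n => toBidual 𝕜 (x n)) := hg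
  have h4 : ContinuousAt (fun u : WeakDual 𝕜 (StrongDual 𝕜 X) => u φ) (StrongDual.toWeakDual g) :=
    (WeakDual.eval_continuous (𝕜 := 𝕜) φ).continuousAt
  have h2 : MapClusterPt (g φ) atTop (fun n => φ (x n)) := h3.continuousAt_comp h4
  have h5 : (𝓝 (g φ) ⊓ map (fun n => φ (x n)) atTop).NeBot := h2
  have h6 : (𝓝 (g φ) ⊓ 𝓝 c).NeBot := h5.mono (inf_le_inf_left _ h)
  exact eq_of_nhds_neBot h6

lemma exists_near_on_finset {A : Set X} {f : StrongDual 𝕜 (StrongDual 𝕜 X)}
    (hf : f ∈ wstarClosure 𝕜 A) {κ : Type*} (s : Finset κ) (φ : κ → StrongDual 𝕜 X) {ε : ℝ}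
    (hε : 0 < ε) : ∃ T ∈ A, ∀ i ∈ s, ‖φ i T - f (φ i)‖ < ε := by
  have h1 : StrongDual.toWeakDual f ∈ closure (toBidual 𝕜 '' A) := hf
  rw [mem_closure_iff_nhds] at h1
  have h3 : ∀ᶠ g in 𝓝 (StrongDual.toWeakDual f), ∀ i ∈ s, ‖g (φ i) - f (φ i)‖ < ε := by
    rw [Filter.eventually_all_finset]
    intro i _
    have h4 : Tendsto (fun g : WeakDual 𝕜 (StrongDual 𝕜 X) =>
        ‖g (φ i) - f (φ i)‖) (𝓝 (StrongDual.toWeakDual f)) (𝓝 0) := by
      have h5 := ((WeakDual.eval_continuous (𝕜 := 𝕜) (φ i)).tendsto (StrongDual.toWeakDual f))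
      exact tendsto_iff_norm_sub_tendsto_zero.1 h5
    exact h4.eventually_lt_const hε
  obtain ⟨_, hg, T, hT, rfl⟩ := h1 _ h3
  exact ⟨T, hT, hg⟩

end Gen

variable {𝕜 : Type*} [RCLike 𝕜] {H : Type*} [NormedAddCommGroup H] [InnerProductSpace 𝕜 H]
  [CompleteSpace H]

lemma wk_le_wck_of_separable [TopologicalSpace.SeparableSpace H] (A : Set (KH 𝕜 H)) :
    wk 𝕜 A ≤ wck 𝕜 A := by
  obtain ⟨P, hP⟩ := exists_projSys (𝕜 := 𝕜) (H := H)
  unfold wk excess
  refine iSup₂_le fun f hf => ?_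
  let d : ℕ → H := TopologicalSpace.denseSeq H
  have hd : DenseRange d := TopologicalSpace.denseRange_denseSeq H
  have hex : ∀ n : ℕ, ∃ T ∈ A, ∀ i < n, ∀ j < n,
      ‖coef (𝕜 := 𝕜) (d i) (d j) T - f (coef (d i) (d j))‖ < 1 / ((n : ℝ) + 1) := by
    intro n
    obtain ⟨T, hT, h⟩ := exists_near_on_finset hf ((Finset.range n) ×ˢ (Finset.range n))
      (fun p => coef (𝕜 := 𝕜) (d p.1) (d p.2)) (ε := 1 / ((n : ℝ) + 1)) (by positivity)
    refine ⟨T, hT, fun i hi j hj => ?_⟩
    exact h (i, j) (Finset.mem_product.2 ⟨Finset.mem_range.2 hi, Finset.mem_range.2 hj⟩)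
  choose x hxA hx using hex
  have hclust : ∀ g ∈ clust 𝕜 x, g = f := by
    intro g hg
    -- values on the coefficients of the dense sequence
    have h1 : ∀ i j, g (coef (d i) (d j)) = f (coef (d i) (d j)) := by
      intro i j
      apply eval_eq_of_mem_clust hg
      rw [tendsto_iff_norm_sub_tendsto_zero]
      refine squeeze_zero' (Eventually.of_forall fun n => norm_nonneg _) ?_
        tendsto_one_div_add_atTop_nhds_zero_nat
      filter_upwards [Filter.eventually_gt_atTop (max i j)] with n hn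
      exact (hx n i (lt_of_le_of_lt (le_max_left _ _) hn) j (lt_of_le_of_lt (le_max_right _ _) hn)).le
    have h7 : opOf (g - f) = 0 := by
      have h8 : ∀ i j, (inner 𝕜 (d j) (opOf (g - f) (d i)) : 𝕜) = 0 := by
        intro i j
        rw [inner_opOf, sub_apply, h1, sub_self]
      have h9 : ∀ i v, (inner 𝕜 v (opOf (g - f) (d i)) : 𝕜) = 0 := by
        intro i
        have hcl : IsClosed {v : H | (inner 𝕜 v (opOf (g - f) (d i)) : 𝕜) = 0} :=
          isClosed_eq (by fun_prop) continuous_const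
        intro v
        have : v ∈ closure (Set.range d) := hd v
        have hsub : Set.range d ⊆ {v : H | (inner 𝕜 v (opOf (g - f) (d i)) : 𝕜) = 0} := by
          rintro _ ⟨j, rfl⟩; exact h8 i j
        exact closure_minimal hsub hcl this
      have h10 : ∀ i, opOf (g - f) (d i) = 0 := fun i => by
        have := h9 i (opOf (g - f) (d i))
        exact inner_self_eq_zero.1 this
      ext u
      have hcl : IsClosed {u : H | opOf (g - f) u = 0} :=
        isClosed_eq (opOf (g - f)).continuous continuous_const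
      have hsub : Set.range d ⊆ {u : H | opOf (g - f) u = 0} := by
        rintro _ ⟨i, rfl⟩; exact h10 i
      exact closure_minimal hsub hcl (hd u)
    have h11 : g - f = 0 := by
      apply hP.bidual_eq_zero
      intro u v
      rw [← inner_opOf, h7, zero_apply, inner_zero_right]
    exact ContinuousLinearMap.ext fun φ => sub_eq_zero.1 (DFunLike.congr_fun h11 φ)
  refine le_trans ?_ (le_iSup₂ (f := fun (x : ℕ → KH 𝕜 H) (_ : ∀ n, x n ∈ A) =>
    ⨅ f ∈ clust 𝕜 x, Metric.infEDist f (canon 𝕜 (KH 𝕜 H))) x hxA)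
  refine le_iInf₂ fun g hg => ?_
  rw [hclust g hg]

lemma omega_le_wk_of_separable [TopologicalSpace.SeparableSpace H] {A : Set (KH 𝕜 H)}
    (hA : Bornology.IsBounded A) : omega 𝕜 A ≤ wk 𝕜 A := by
  obtain ⟨P, hP⟩ := exists_projSys (𝕜 := 𝕜) (H := H)
  refine ENNReal.le_of_forall_pos_le_add fun ε hε hfin => ?_
  have hfin' : wk 𝕜 A ≠ ∞ := hfin.ne
  set t : ℝ := (wk 𝕜 A).toReal + ε with ht
  have ht0 : 0 < t := add_pos_of_nonneg_of_pos ENNReal.toReal_nonneg (by exact_mod_cast hε)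
  have ht1 : ENNReal.ofReal t = wk 𝕜 A + ε := by
    rw [ht, ENNReal.ofReal_add ENNReal.toReal_nonneg (by positivity), ENNReal.ofReal_toReal hfin']
    simp
  rw [← ht1]
  apply omega_le_of_wk_lt hP hA ht0
  rw [ht1]
  exact ENNReal.lt_add_right hfin' (by simpa using hε.ne')

/-- For separable `H` the three measures coincide on bounded subsets of `K(H)`. -/
theorem all_eq_of_separable [TopologicalSpace.SeparableSpace H] {A : Set (KH 𝕜 H)}
    (hA : Bornology.IsBounded A) : omega 𝕜 A = wk 𝕜 A ∧ wk 𝕜 A = wck 𝕜 A :=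
  ⟨le_antisymm (omega_le_wk_of_separable hA) (wk_le_omega A),
    le_antisymm (wk_le_wck_of_separable A) (wck_le_wk hA)⟩

end Pool.Agent.Helper41.WNC
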