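import Mathlib
import Pool.Agent.Helper41.WNCSep2
import Pool.Agent.Helper41.WNCComb

open Filter Topology Set InnerProductSpace
open scoped ENNReal NNReal

namespace Pool.Agent.Helper41.WNC

variable {𝕜 : Type*} [RCLike 𝕜] {H : Type*} [NormedAddCommGroup H] [InnerProductSpace 𝕜 H]

lemma norm_sq_sum_of_orth {κ : Type*} (s : Finset κ) (v : κ → H)
    (h : ∀ i ∈ s, ∀ j ∈ s, i ≠ j → (inner 𝕜 (v i) (v j) : 𝕜) = 0) :
    ‖∑ i ∈ s, v i‖ ^ 2 = ∑ i ∈ s, ‖v i‖ ^ 2 := by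
  classical
  induction s using Finset.induction_on with
  | empty => simp
  | insert a s ha ih =>
    rw [Finset.sum_insert ha, Finset.sum_insert ha,
      ← ih (fun i hi j hj hij => h i (Finset.mem_insert_of_mem hi) j (Finset.mem_insert_of_mem hj) hij)]
    have h1 : (inner 𝕜 (v a) (∑ i ∈ s, v i) : 𝕜) = 0 := by
      rw [inner_sum]
      refine Finset.sum_eq_zero fun i hi => ?_
      exact h a (Finset.mem_insert_self a s) i (Finset.mem_insert_of_mem hi)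
        (fun hai => ha (hai ▸ hi))
    have := norm_add_sq (𝕜 := 𝕜) (v a) (∑ i ∈ s, v i)
    rw [h1] at this
    simpa using this

lemma sum_rk_apply (w f : ℕ → H) (s : Finset ℕ) (u : H) :
    (∑ n ∈ s, (rk (w n) (f n) : KH 𝕜 H)).1 u = ∑ n ∈ s, (inner 𝕜 (f n) u : 𝕜) • w n := by
  rw [KH.sum_coe, sum_apply]
  exact Finset.sum_congr rfl fun n _ => rk_apply _ _ _

lemma norm_sum_rk_le {f : ℕ → H} (hf : Orthonormal 𝕜 f) (w : ℕ → H) (s : Finset ℕ) {C : ℝ}
    (hC : 0 ≤ C) (h : ∀ i ∈ s, ∀ j ∈ s, i ≠ j → (inner 𝕜 (w i) (w j) : 𝕜) = 0)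
    (hw : ∀ n ∈ s, ‖w n‖ ≤ C) : ‖∑ n ∈ s, (rk (w n) (f n) : KH 𝕜 H)‖ ≤ C := by
  change ‖(∑ n ∈ s, (rk (w n) (f n) : KH 𝕜 H)).1‖ ≤ C
  apply ContinuousLinearMap.opNorm_le_bound _ hC
  intro u
  rw [sum_rk_apply]
  have h1 : ‖∑ n ∈ s, (inner 𝕜 (f n) u : 𝕜) • w n‖ ^ 2 ≤ (C * ‖u‖) ^ 2 := by
    rw [norm_sq_sum_of_orth (𝕜 := 𝕜)]
    · calc ∑ n ∈ s, ‖(inner 𝕜 (f n) u : 𝕜) • w n‖ ^ 2
          ≤ ∑ n ∈ s, C ^ 2 * ‖(inner 𝕜 (f n) u : 𝕜)‖ ^ 2 := by
            refine Finset.sum_le_sum fun n hn => ?_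
            rw [norm_smul, mul_pow, mul_comm]
            gcongr
            exact hw n hn
        _ = C ^ 2 * ∑ n ∈ s, ‖(inner 𝕜 (f n) u : 𝕜)‖ ^ 2 := by rw [Finset.mul_sum]
        _ ≤ C ^ 2 * ‖u‖ ^ 2 := by
            gcongr
            exact hf.sum_inner_products_le u
        _ = (C * ‖u‖) ^ 2 := by ring
    · intro i hi j hj hij
      rw [inner_smul_left, inner_smul_right, h i hi j hj hij]
      simp
  exact le_of_sq_le_sq h1 (by positivity)

variable {Γ : Type*}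

/-- the vector `∑_{x ∈ F} g (n, x)` -/
noncomputable def vec (g : ℕ × Γ → H) (n : ℕ) (F : Finset Γ) : H := ∑ x ∈ F, g (n, x)

variable (𝕜) in
/-- the test operators `T_{F,N} = ∑_{n < N} ⟨f n, ·⟩ ∑_{x ∈ F} g (n, x)` -/
noncomputable def tst (f : ℕ → H) (g : ℕ × Γ → H) (F : Finset Γ) (N : ℕ) : KH 𝕜 H :=
  ∑ n ∈ Finset.range N, rk (vec g n F) (f n)

section

variable {g : ℕ × Γ → H} (hg : Orthonormal 𝕜 g)

include hg

lemma norm_vec_sq (n : ℕ) (F : Finset Γ) : ‖vec g n F‖ ^ 2 = F.card := by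
  unfold vec
  rw [norm_sq_sum_of_orth (𝕜 := 𝕜)]
  · simp [hg.1]
  · intro i _ j _ hij
    exact hg.2 (fun h => hij (Prod.ext_iff.1 h).2)

lemma norm_vec (n : ℕ) (F : Finset Γ) : ‖vec g n F‖ = Real.sqrt F.card := by
  rw [← norm_vec_sq hg n F, Real.sqrt_sq (norm_nonneg _)]

lemma inner_vec_eq_zero {m n : ℕ} (h : m ≠ n) (F G : Finset Γ) :
    (inner 𝕜 (vec g m F) (vec g n G) : 𝕜) = 0 := by
  unfold vec
  rw [sum_inner]
  refine Finset.sum_eq_zero fun x _ => ?_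
  rw [inner_sum]
  refine Finset.sum_eq_zero fun y _ => ?_
  exact hg.2 (fun h' => h (Prod.ext_iff.1 h').1)

lemma inner_vec_eq_one [DecidableEq Γ] (n : ℕ) {F : Finset Γ} {x : Γ} (hx : x ∈ F) :
    (inner 𝕜 (g (n, x)) (vec g n F) : 𝕜) = 1 := by
  unfold vec
  rw [inner_sum, Finset.sum_eq_single x]
  · rw [inner_self_eq_norm_sq_to_K, hg.1]; simp
  · intro y _ hyx
    exact hg.2 (fun h => hyx (Prod.ext_iff.1 h).2.symm)
  · intro h; exact absurd hx h

variable {f : ℕ → H} (hf : Orthonormal 𝕜 f)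
include hf

lemma norm_tst_le (F : Finset Γ) (N : ℕ) : ‖tst 𝕜 f g F N‖ ≤ Real.sqrt F.card := by
  unfold tst
  apply norm_sum_rk_le hf _ _ (Real.sqrt_nonneg _)
  · intro i _ j _ hij
    exact inner_vec_eq_zero hg hij F F
  · intro n _
    rw [norm_vec hg]

omit hg in
lemma tst_apply (F : Finset Γ) {N n : ℕ} (hn : n < N) : (tst 𝕜 f g F N).1 (f n) = vec g n F := by
  unfold tst
  rw [sum_rk_apply, Finset.sum_eq_single n]
  · rw [inner_self_eq_norm_sq_to_K, hf.1]; simp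
  · intro k _ hkn
    rw [hf.2 hkn, zero_smul]
  · intro h; exact absurd (Finset.mem_range.2 hn) h

end

variable [CompleteSpace H]

omit [CompleteSpace H] in
lemma tendsto_inner_orthonormal {f : ℕ → H} (hf : Orthonormal 𝕜 f) (z : H) :
    Tendsto (fun n => (inner 𝕜 (f n) z : 𝕜)) atTop (𝓝 0) := by
  have h1 := (hf.inner_products_summable z).tendsto_atTop_zero
  rw [tendsto_zero_iff_norm_tendsto_zero]
  have h2 := h1.sqrt
  simpa using h2

/-- compact operators map orthonormal sequences to null sequences -/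
lemma tendsto_compact_orthonormal {f : ℕ → H} (hf : Orthonormal 𝕜 f) (k : KH 𝕜 H) :
    Tendsto (fun n => k.1 (f n)) atTop (𝓝 0) := by
  apply tendsto_of_subseq_tendsto
  intro ns hns
  have hcomp := k.2.isCompact_closure_image_closedBall (f := (k.1 : H →ₗ[𝕜] H)) 1
  obtain ⟨a, _, φ, _, hφ⟩ := hcomp.tendsto_subseq (x := fun n => k.1 (f (ns n)))
    (fun n => subset_closure ⟨f (ns n), by simp [hf.1], rfl⟩)
  refine ⟨φ, ?_⟩
  have ha : a = 0 := by
    refine ext_inner_left 𝕜 fun w => ?_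
    rw [inner_zero_right]
    have h1 : Tendsto (fun n => (inner 𝕜 w (k.1 (f (ns (φ n)))) : 𝕜)) atTop (𝓝 (inner 𝕜 w a)) :=
      (tendsto_const_nhds.inner hφ)
    have h2 : Tendsto (fun n => (inner 𝕜 w (k.1 (f (ns (φ n)))) : 𝕜)) atTop (𝓝 0) := by
      have h3 : ∀ n, (inner 𝕜 w (k.1 (f (ns (φ n)))) : 𝕜) =
          starRingEnd 𝕜 (inner 𝕜 (f (ns (φ n))) (ContinuousLinearMap.adjoint k.1 w)) := by
        intro n
        rw [inner_conj_symm, ContinuousLinearMap.adjoint_inner_left]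
      simp_rw [h3]
      have h4 := (tendsto_inner_orthonormal hf (ContinuousLinearMap.adjoint k.1 w)).comp
        (hns.comp (StrictMono.tendsto_atTop ‹StrictMono φ›))
      have h5 := (continuous_star (R := 𝕜)).tendsto (0 : 𝕜)
      rw [star_zero] at h5
      exact h5.comp h4
    exact tendsto_nhds_unique h1 h2
  rw [← ha]
  exact hφ

end Pool.Agent.Helper41.WNC
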