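import Mathlib
import Pool.Agent.Helper41.WNCNonsep

open Filter Topology Set InnerProductSpace
open scoped ENNReal NNReal

namespace Pool.Agent.Helper41.WNC

variable {𝕜 : Type*} [RCLike 𝕜] {H : Type*} [NormedAddCommGroup H] [InnerProductSpace 𝕜 H]

/-- the index set of the test family -/
def idx {Γ : Type*} (c : Γ → ℕ → Bool) (m : ℕ) : Set (Finset Γ × ℕ) :=
  {p | p.1.card = m ∧ ∀ x ∈ p.1, ∀ y ∈ p.1, ∀ i < p.2, c x i = c y i}

variable (𝕜) in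
/-- The test sets `A_m`. -/
noncomputable def testSet {Γ : Type*} (c : Γ → ℕ → Bool) (f : ℕ → H) (g : ℕ × Γ → H) (m : ℕ) :
    Set (KH 𝕜 H) :=
  (fun p : Finset Γ × ℕ => tst 𝕜 f g p.1 p.2) '' idx c m

section Gen

variable {X : Type*} [NormedAddCommGroup X] [NormedSpace 𝕜 X]

/-- weakly compact sets: limits along ultrafilters -/
lemma IsWeaklyCompact.exists_limit {K : Set X} (hK : IsWeaklyCompact 𝕜 K) {ι : Type*}
    (𝓕 : Ultrafilter ι) {k : ι → X} (hk : ∀ i, k i ∈ K) :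
    ∃ k₀ ∈ K, ∀ φ : StrongDual 𝕜 X, Tendsto (fun i => φ (k i)) 𝓕 (𝓝 (φ k₀)) := by
  have hle : ((𝓕.map (fun i => toWeakSpace 𝕜 X (k i)) : Ultrafilter _) : Filter _) ≤
      𝓟 (toWeakSpace 𝕜 X '' K) := by
    rw [Filter.le_principal_iff]
    exact Filter.mem_map.2 (Filter.univ_mem' fun i => ⟨k i, hk i, rfl⟩)
  obtain ⟨_, ⟨k₀, hk₀, rfl⟩, hk2⟩ := IsCompact.ultrafilter_le_nhds hK _ hle
  refine ⟨k₀, hk₀, fun φ => ?_⟩
  have h3 : Tendsto (fun i => toWeakSpace 𝕜 X (k i)) 𝓕 (𝓝 (toWeakSpace 𝕜 X k₀)) := hk2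
  have h4 : Continuous (fun y : WeakSpace 𝕜 X => φ ((toWeakSpace 𝕜 X).symm y)) := by
    have h5 := (NormedSpace.inclusionInDoubleDualWeak 𝕜 X).continuous
    exact (WeakDual.eval_continuous (𝕜 := 𝕜) φ).comp h5
  exact (h4.tendsto _).comp h3

end Gen

variable [CompleteSpace H]

/-- The De Blasi measure of the test set is at least `√m / 2`. -/
lemma le_omega_testSet {Γ : Type*} [Uncountable Γ] (c : Γ → ℕ → Bool) {f : ℕ → H} {g : ℕ × Γ → H}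
    (hf : Orthonormal 𝕜 f) (hg : Orthonormal 𝕜 g) (m : ℕ) :
    ENNReal.ofReal (Real.sqrt m / 2) ≤ omega 𝕜 (testSet 𝕜 c f g m) := by
  classical
  unfold omega
  refine le_iInf₂ fun K hK => ?_
  by_contra hcon
  push Not at hcon
  -- approximation by elements of `K`
  have happ : ∀ p ∈ idx c m, ∃ k ∈ K, ‖tst 𝕜 f g p.1 p.2 - k‖ < Real.sqrt m / 2 := by
    intro p hp
    have h1 : Metric.infEDist (tst 𝕜 f g p.1 p.2) K < ENNReal.ofReal (Real.sqrt m / 2) :=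
      (le_iSup₂ (f := fun a (_ : a ∈ testSet 𝕜 c f g m) => Metric.infEDist a K)
        (tst 𝕜 f g p.1 p.2) ⟨p, hp, rfl⟩).trans_lt hcon
    obtain ⟨k, hk, hk2⟩ := Metric.infEDist_lt_iff.1 h1
    rw [edist_dist, dist_eq_norm] at hk2
    refine ⟨k, hk, ?_⟩
    by_contra h2
    push Not at h2
    exact absurd hk2 (not_lt.2 (ENNReal.ofReal_le_ofReal h2))
  let U : Γ → Set (Set ℕ) := fun x =>
    {s | ∃ k ∈ K, ∀ n ∈ s, 1 / 2 ≤ RCLike.re (inner 𝕜 (g (n, x)) (k.1 (f n)) : 𝕜)}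
  have hfinU : ∀ x, ∀ s ∈ U x, s.Finite := by
    -- finiteness
    rintro x s ⟨k, _, hk⟩
    have h1 : Tendsto (fun n => ‖k.1 (f n)‖) atTop (𝓝 0) := by
      rw [← tendsto_zero_iff_norm_tendsto_zero]
      exact tendsto_compact_orthonormal hf k
    obtain ⟨n₀, hn₀⟩ := Filter.eventually_atTop.1 (h1.eventually_lt_const (show (0 : ℝ) < 1 / 2 by norm_num))
    apply (Set.finite_lt_nat n₀).subset
    intro n hn
    by_contra h2
    have h3 := hn₀ n (not_lt.1 h2)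
    have h4 := hk n hn
    have h5 : RCLike.re (inner 𝕜 (g (n, x)) (k.1 (f n)) : 𝕜) ≤ ‖k.1 (f n)‖ := by
      refine (RCLike.re_le_norm _).trans ((norm_inner_le_norm _ _).trans ?_)
      rw [hg.1, one_mul]
    linarith
  have hmonoU : ∀ x, ∀ s ∈ U x, ∀ s' ⊆ s, s' ∈ U x := by
    rintro x s ⟨k, hkK, hk⟩ s' hs'
    exact ⟨k, hkK, fun n hn => hk n (hs' hn)⟩
  have hclosedU : ∀ x, ∀ s : Set ℕ, (∀ n, s ∩ {i | i < n} ∈ U x) → s ∈ U x := by
    -- closedness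
    intro x s hs
    choose k hkK hk using hs
    obtain ⟨k₀, hk₀, hlim⟩ := hK.2.exists_limit (Filter.hyperfilter ℕ) hkK
    refine ⟨k₀, hk₀, fun n hn => ?_⟩
    have h1 : Tendsto (fun j => RCLike.re (inner 𝕜 (g (n, x)) ((k j).1 (f n)) : 𝕜))
        (Filter.hyperfilter ℕ) (𝓝 (RCLike.re (inner 𝕜 (g (n, x)) (k₀.1 (f n)) : 𝕜))) :=
      (RCLike.continuous_re.tendsto _).comp (hlim (coef (f n) (g (n, x))))
    refine ge_of_tendsto h1 ?_
    have h3 : ((Filter.hyperfilter ℕ : Ultrafilter ℕ) : Filter ℕ) ≤ atTop := by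
      rw [← Nat.cofinite_eq_atTop]
      exact Filter.hyperfilter_le_cofinite
    filter_upwards [h3 (Filter.eventually_gt_atTop n)] with j hj
    exact hk j n ⟨hn, hj⟩
  obtain ⟨F, N, hFm, hagree, hcov⟩ := exists_bad_finset c m U hfinU hmonoU hclosedU
  obtain ⟨k, hkK, hk⟩ := happ (F, N) ⟨hFm, hagree⟩
  obtain ⟨i, hiN, hi⟩ := hcov
    (fun x => {n | 1 / 2 ≤ RCLike.re (inner 𝕜 (g (n, x)) (k.1 (f n)) : 𝕜)})
    (fun x _ => ⟨k, hkK, fun n hn => hn⟩)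
  have h1 : ∀ x ∈ F, RCLike.re (inner 𝕜 (g (i, x)) (k.1 (f i)) : 𝕜) < 1 / 2 := by
    intro x hx
    have := hi x hx
    simpa using this
  -- Bessel
  have hgi : Orthonormal 𝕜 (fun x : Γ => g (i, x)) := hg.comp (fun x => (i, x))
    (fun a b hab => (Prod.ext_iff.1 hab).2)
  have h2 := hgi.sum_inner_products_le (s := F) ((tst 𝕜 f g F N - k).1 (f i))
  have h3 : ∀ x ∈ F, (1 / 4 : ℝ) ≤ ‖(inner 𝕜 (g (i, x)) ((tst 𝕜 f g F N - k).1 (f i)) : 𝕜)‖ ^ 2 := by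
    intro x hx
    have h4 : (inner 𝕜 (g (i, x)) ((tst 𝕜 f g F N - k).1 (f i)) : 𝕜) =
        1 - inner 𝕜 (g (i, x)) (k.1 (f i)) := by
      rw [KH.sub_coe, sub_apply, inner_sub_right, tst_apply hf F hiN, inner_vec_eq_one hg i hx]
    rw [h4]
    have h5 : (1 / 2 : ℝ) ≤ RCLike.re (1 - inner 𝕜 (g (i, x)) (k.1 (f i)) : 𝕜) := by
      rw [map_sub, RCLike.one_re]
      linarith [h1 x hx]
    have h6 := h5.trans (RCLike.re_le_norm _)
    calc (1 / 4 : ℝ) = (1 / 2) ^ 2 := by norm_num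
      _ ≤ _ := by gcongr
  have h7 : (m : ℝ) / 4 ≤ ‖(tst 𝕜 f g F N - k).1 (f i)‖ ^ 2 := by
    refine le_trans ?_ h2
    calc (m : ℝ) / 4 = ∑ x ∈ F, (1 / 4 : ℝ) := by rw [Finset.sum_const, hFm]; simp; ring
      _ ≤ _ := Finset.sum_le_sum h3
  have h8 : ‖(tst 𝕜 f g F N - k).1 (f i)‖ ≤ ‖tst 𝕜 f g F N - k‖ := by
    have := (tst 𝕜 f g F N - k).1.le_opNorm (f i)
    rw [hf.1, mul_one] at this
    exact this
  have h9 : ‖(tst 𝕜 f g F N - k).1 (f i)‖ ^ 2 < (Real.sqrt m / 2) ^ 2 := by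
    have := h8.trans_lt hk
    gcongr
  rw [div_pow, Real.sq_sqrt (by positivity)] at h9
  norm_num at h9
  linarith

end Pool.Agent.Helper41.WNC
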