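import Mathlib
import Pool.Agent.Helper41.WNCLower

open Filter Topology Set InnerProductSpace
open scoped ENNReal NNReal

namespace Pool.Agent.Helper41.WNC

/-- sums over convergent finite sets of a null family -/
lemma tendsto_sum_finset {E : Type*} [NormedAddCommGroup E] {Γ ι : Type*} (𝓕 : Ultrafilter ι)
    (F : ι → Finset Γ) (m : ℕ) (hm : ∀ᶠ i in 𝓕, (F i).card ≤ m) (F' : Finset Γ)
    (hF' : ∀ x, x ∈ F' ↔ ∀ᶠ i in 𝓕, x ∈ F i) {β : Γ → E} (hβ : Tendsto β cofinite (𝓝 0)) :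
    Tendsto (fun i => ∑ x ∈ F i, β x) 𝓕 (𝓝 (∑ x ∈ F', β x)) := by
  classical
  rw [Metric.tendsto_nhds]
  intro ε hε
  have hε' : 0 < ε / (m + 1) := by positivity
  have hG : {x | ¬ ‖β x‖ < ε / (m + 1)}.Finite := by
    have h1 := (tendsto_zero_iff_norm_tendsto_zero.1 hβ).eventually_lt_const hε'
    exact h1
  have h2 : ∀ᶠ i in 𝓕, ∀ x ∈ hG.toFinset ∪ F', (x ∈ F i ↔ x ∈ F') := by
    rw [Filter.eventually_all_finset]
    intro x _
    by_cases hx : x ∈ F'
    · filter_upwards [(hF' x).1 hx] with i hi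
      exact ⟨fun _ => hx, fun _ => hi⟩
    · have h3 : ∀ᶠ i in 𝓕, x ∉ F i :=
        Ultrafilter.eventually_not.2 (fun h => hx ((hF' x).2 h))
      filter_upwards [h3] with i hi
      exact ⟨fun h => absurd h hi, fun h => absurd h hx⟩
  filter_upwards [h2, hm] with i hi hmi
  have hsub : F' ⊆ F i := fun x hx => (hi x (Finset.mem_union_right _ hx)).2 hx
  have h4 : ∑ x ∈ F i, β x - ∑ x ∈ F', β x = ∑ x ∈ F i \ F', β x := by
    rw [← Finset.sum_sdiff hsub]; abel
  rw [dist_eq_norm, h4]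
  have h5 : ∀ x ∈ F i \ F', ‖β x‖ ≤ ε / (m + 1) := by
    intro x hx
    rw [Finset.mem_sdiff] at hx
    by_contra h6
    have h7 : x ∈ hG.toFinset := hG.mem_toFinset.2 (fun h8 => h6 h8.le)
    exact hx.2 ((hi x (Finset.mem_union_left _ h7)).1 hx.1)
  calc ‖∑ x ∈ F i \ F', β x‖ ≤ ∑ x ∈ F i \ F', ‖β x‖ := norm_sum_le _ _
    _ ≤ ∑ x ∈ F i \ F', ε / (m + 1) := Finset.sum_le_sum h5
    _ = (F i \ F').card * (ε / (m + 1)) := by rw [Finset.sum_const, nsmul_eq_mul]
    _ ≤ m * (ε / (m + 1)) := by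
        gcongr
        exact (Finset.card_le_card Finset.sdiff_subset).trans hmi
    _ < ε := by
        rw [← mul_div_assoc, div_lt_iff₀ (by positivity)]
        nlinarith

variable {𝕜 : Type*} [RCLike 𝕜] {H : Type*} [NormedAddCommGroup H] [InnerProductSpace 𝕜 H]

/-- the map `w ↦ φ (rk w u)` is a bounded functional -/
noncomputable def slice (φ : StrongDual 𝕜 (KH 𝕜 H)) (u : H) : StrongDual 𝕜 H :=
  LinearMap.mkContinuous
    { toFun := fun w => φ (rk w u)
      map_add' := fun w w' => by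
        rw [← map_add]; congr 1
        apply KH.ext
        ext x
        rw [KH.add_coe, add_apply, rk_apply, rk_apply, rk_apply, smul_add]
      map_smul' := fun a w => by
        rw [RingHom.id_apply, ← map_smul]; congr 1
        apply KH.ext
        ext x
        rw [KH.smul_coe, smul_apply, rk_apply, rk_apply, smul_comm] }
    (‖φ‖ * ‖u‖) (fun w => by
      change ‖φ (rk w u)‖ ≤ ‖φ‖ * ‖u‖ * ‖w‖
      refine (φ.le_opNorm _).trans ?_
      rw [mul_assoc]
      have h1 : ‖(rk w u : KH 𝕜 H)‖ = ‖w‖ * ‖u‖ := InnerProductSpace.norm_rankOne w u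
      rw [h1, mul_comm ‖w‖])

lemma slice_apply (φ : StrongDual 𝕜 (KH 𝕜 H)) (u w : H) : slice φ u w = φ (rk w u) := rfl

variable {Γ : Type*} {f : ℕ → H} {g : ℕ × Γ → H}

lemma map_rk_vec (φ : StrongDual 𝕜 (KH 𝕜 H)) (n : ℕ) (F : Finset Γ) (u : H) :
    φ (rk (vec g n F) u) = ∑ x ∈ F, φ (rk (g (n, x)) u) := by
  rw [← slice_apply, vec, map_sum]
  rfl

lemma map_tst (φ : StrongDual 𝕜 (KH 𝕜 H)) (F : Finset Γ) (N : ℕ) :
    φ (tst 𝕜 f g F N) = ∑ n ∈ Finset.range N, φ (rk (vec g n F) (f n)) := by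
  rw [tst, map_sum]

section

variable (hf : Orthonormal 𝕜 f) (hg : Orthonormal 𝕜 g)
include hf hg

/-- uniform summability of the slices over all sets of cardinality at most `m` -/
lemma sum_norm_le_of_choice (φ : StrongDual 𝕜 (KH 𝕜 H)) {m : ℕ} (G : ℕ → Finset Γ)
    (hG : ∀ n, (G n).card ≤ m) (L : ℕ) :
    ∑ n ∈ Finset.range L, ‖φ (rk (vec g n (G n)) (f n))‖ ≤ ‖φ‖ * Real.sqrt m := by
  -- phases
  have hphase : ∀ z : 𝕜, ∃ θ : 𝕜, ‖θ‖ ≤ 1 ∧ θ * z = ‖z‖ := by
    intro z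
    by_cases hz : z = 0
    · exact ⟨0, by simp, by simp [hz]⟩
    · refine ⟨(starRingEnd 𝕜 z) / ‖z‖, ?_, ?_⟩
      · rw [norm_div, RCLike.norm_conj, RCLike.norm_ofReal, abs_norm, div_self (norm_ne_zero_iff.2 hz)]
      · rw [div_mul_eq_mul_div, RCLike.conj_mul, sq]
        have : (‖z‖ : 𝕜) ≠ 0 := by
          simpa using hz
        field_simp
  choose θ hθ1 hθ2 using hphase
  set w : ℕ → H := fun n => θ (φ (rk (vec g n (G n)) (f n))) • vec g n (G n) with hw
  have h1 : φ (∑ n ∈ Finset.range L, rk (w n) (f n)) =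
      ((∑ n ∈ Finset.range L, ‖φ (rk (vec g n (G n)) (f n))‖ : ℝ) : 𝕜) := by
    rw [map_sum, RCLike.ofReal_sum]
    refine Finset.sum_congr rfl fun n _ => ?_
    rw [← slice_apply, hw]
    rw [map_smul, slice_apply, smul_eq_mul, hθ2]
  have h2 : ‖∑ n ∈ Finset.range L, (rk (w n) (f n) : KH 𝕜 H)‖ ≤ Real.sqrt m := by
    apply norm_sum_rk_le hf _ _ (Real.sqrt_nonneg _)
    · intro i _ j _ hij
      rw [hw]
      rw [inner_smul_left, inner_smul_right, inner_vec_eq_zero hg hij]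
      simp
    · intro n _
      rw [hw]
      simp only [norm_smul]
      calc _ ≤ 1 * Real.sqrt (G n).card := by
            rw [norm_vec hg]
            gcongr
            exact hθ1 _
        _ ≤ Real.sqrt m := by
            rw [one_mul]
            apply Real.sqrt_le_sqrt
            exact_mod_cast hG n
  have h3 := φ.le_opNorm (∑ n ∈ Finset.range L, rk (w n) (f n))
  rw [h1, RCLike.norm_ofReal, abs_of_nonneg (Finset.sum_nonneg fun _ _ => norm_nonneg _)] at h3
  exact h3.trans (by gcongr)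

lemma exists_summable_bound (φ : StrongDual 𝕜 (KH 𝕜 H)) (m : ℕ) :
    ∃ b : ℕ → ℝ, Summable b ∧ ∀ (n : ℕ) (F : Finset Γ), F.card ≤ m →
      ‖φ (rk (vec g n F) (f n))‖ ≤ b n := by
  classical
  let S : ℕ → {F : Finset Γ // F.card ≤ m} → ℝ := fun n F => ‖φ (rk (vec g n F.1) (f n))‖
  have hbdd : ∀ n, BddAbove (Set.range (S n)) := by
    intro n
    refine ⟨‖φ‖ * Real.sqrt m, ?_⟩
    rintro _ ⟨F, rfl⟩
    have h1 := sum_norm_le_of_choice hf hg φ (m := m) (fun _ => F.1) (fun _ => F.2) (n + 1)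
    refine le_trans ?_ h1
    exact Finset.single_le_sum (f := fun k => ‖φ (rk (vec g k F.1) (f k))‖)
      (fun _ _ => norm_nonneg _) (Finset.mem_range.2 (Nat.lt_succ_self n))
  have hne : Nonempty {F : Finset Γ // F.card ≤ m} := ⟨⟨∅, by simp⟩⟩
  have hnn : ∀ n, 0 ≤ ⨆ F, S n F := fun n => Real.iSup_nonneg fun F => norm_nonneg _
  refine ⟨fun n => ⨆ F, S n F, ?_, fun n F hF => le_ciSup (hbdd n) ⟨F, hF⟩⟩
  apply summable_of_sum_range_le (c := ‖φ‖ * Real.sqrt m) hnn
  intro L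
  refine le_of_forall_pos_le_add fun δ hδ => ?_
  have hδ' : 0 < δ / (L + 1) := by positivity
  have hch : ∀ n, ∃ F : {F : Finset Γ // F.card ≤ m}, (⨆ F, S n F) - δ / (L + 1) < S n F := by
    intro n
    exact exists_lt_of_lt_ciSup (sub_lt_self _ hδ')
  choose G hG using hch
  have h1 := sum_norm_le_of_choice hf hg φ (m := m) (fun n => (G n).1) (fun n => (G n).2) L
  calc ∑ n ∈ Finset.range L, (⨆ F, S n F)
      ≤ ∑ n ∈ Finset.range L, (S n (G n) + δ / (L + 1)) :=
        Finset.sum_le_sum fun n _ => by linarith [hG n]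
    _ = ∑ n ∈ Finset.range L, S n (G n) + L * (δ / (L + 1)) := by
        rw [Finset.sum_add_distrib, Finset.sum_const, Finset.card_range, nsmul_eq_mul]
    _ ≤ ‖φ‖ * Real.sqrt m + δ := by
        gcongr
        rw [← mul_div_assoc, div_le_iff₀ (by positivity)]
        nlinarith

end

variable [CompleteSpace H]

omit [CompleteSpace H] in
lemma tendsto_slice_cofinite [CompleteSpace H] (hg : Orthonormal 𝕜 g) (φ : StrongDual 𝕜 (KH 𝕜 H)) (n : ℕ) (u : H) :
    Tendsto (fun x : Γ => φ (rk (g (n, x)) u)) cofinite (𝓝 0) := by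
  have hgn : Orthonormal 𝕜 (fun x : Γ => g (n, x)) := hg.comp (fun x => (n, x))
    (fun a b hab => (Prod.ext_iff.1 hab).2)
  set z := (InnerProductSpace.toDual 𝕜 H).symm (slice φ u) with hz
  have h1 : ∀ x, φ (rk (g (n, x)) u) = inner 𝕜 z (g (n, x)) := by
    intro x
    rw [hz, InnerProductSpace.toDual_symm_apply]
    rfl
  have h2 := (hgn.inner_products_summable z).tendsto_cofinite_zero
  have h3 := h2.sqrt
  rw [Real.sqrt_zero] at h3
  rw [tendsto_zero_iff_norm_tendsto_zero]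
  refine h3.congr fun x => ?_
  rw [Real.sqrt_sq (norm_nonneg _), h1, norm_inner_symm]

end Pool.Agent.Helper41.WNC
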