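import Mathlib
import Pool.Agent.Helper41.WNCUpper

open Filter Topology Set InnerProductSpace
open scoped ENNReal NNReal

namespace Pool.Agent.Helper41.WNC

variable {𝕜 : Type*} [RCLike 𝕜] {H : Type*} [NormedAddCommGroup H] [InnerProductSpace 𝕜 H]
  [CompleteSpace H] {Γ : Type*} {f : ℕ → H} {g : ℕ × Γ → H}

lemma wk_testSet_le_one {c : Γ → ℕ → Bool} (hc : Function.Injective c) (hf : Orthonormal 𝕜 f)
    (hg : Orthonormal 𝕜 g) (m : ℕ) : wk 𝕜 (testSet 𝕜 c f g m) ≤ 1 := by
  classical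
  unfold wk excess
  refine iSup₂_le fun b hb => ?_
  obtain ⟨𝓕, hidx, hlim⟩ := exists_ultrafilter_of_mem_wstarClosure hb
  -- the limit set
  set Finf : Set Γ := {x | ∀ᶠ p : Finset Γ × ℕ in 𝓕, x ∈ p.1} with hFinf
  have hsubcard : ∀ G : Finset Γ, (G : Set Γ) ⊆ Finf → G.card ≤ m := by
    intro G hG
    have h1 : ∀ᶠ p : Finset Γ × ℕ in 𝓕, ∀ x ∈ G, x ∈ p.1 := by
      rw [Filter.eventually_all_finset]
      intro x hx
      exact hG hx
    obtain ⟨p, hp1, hp2⟩ := (h1.and hidx).exists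
    have hp2' : p.1.card = m := hp2.1
    rw [← hp2']
    exact Finset.card_le_card hp1
  have hfinite : Finf.Finite := by
    by_contra hinf
    obtain ⟨G, hG, hGc⟩ := Set.Infinite.exists_subset_card_eq hinf (m + 1)
    have := hsubcard G hG
    omega
  set F' : Finset Γ := hfinite.toFinset with hF'
  have hF'mem : ∀ x, x ∈ F' ↔ ∀ᶠ p : Finset Γ × ℕ in 𝓕, x ∈ p.1 := fun x => hfinite.mem_toFinset
  have hcardev : ∀ᶠ p : Finset Γ × ℕ in 𝓕, p.1.card ≤ m := by
    filter_upwards [hidx] with p hp using hp.1.le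
  have hslice : ∀ (φ : StrongDual 𝕜 (KH 𝕜 H)) (n : ℕ),
      Tendsto (fun p : Finset Γ × ℕ => φ (rk (vec g n p.1) (f n))) 𝓕
        (𝓝 (φ (rk (vec g n F') (f n)))) := by
    intro φ n
    simp_rw [map_rk_vec]
    exact tendsto_sum_finset 𝓕 (fun p : Finset Γ × ℕ => p.1) m hcardev F' hF'mem
      (tendsto_slice_cofinite hg φ n (f n))
  by_cases hcase : ∃ N₀, ∀ᶠ p : Finset Γ × ℕ in 𝓕, p.2 < N₀
  · -- bounded lengths
    obtain ⟨N₀, hN₀⟩ := hcase
    have h2 : ∃ N, ∀ᶠ p : Finset Γ × ℕ in 𝓕, p.2 = N := by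
      by_contra hcon
      push Not at hcon
      have h3 : ∀ᶠ p : Finset Γ × ℕ in 𝓕, ∀ N ∈ Finset.range N₀, p.2 ≠ N := by
        rw [Filter.eventually_all_finset]
        intro N _
        exact Ultrafilter.eventually_not.2 (by simpa using hcon N)
      obtain ⟨p, hp1, hp2⟩ := (h3.and hN₀).exists
      exact hp1 p.2 (Finset.mem_range.2 hp2) rfl
    obtain ⟨N, hN⟩ := h2
    have h3 : b = NormedSpace.inclusionInDoubleDual 𝕜 (KH 𝕜 H) (tst 𝕜 f g F' N) := by
      refine ContinuousLinearMap.ext fun φ => ?_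
      change b φ = φ (tst 𝕜 f g F' N)
      refine tendsto_nhds_unique (hlim φ) ?_
      have h4 : Tendsto (fun p : Finset Γ × ℕ => ∑ n ∈ Finset.range N, φ (rk (vec g n p.1) (f n))) 𝓕
          (𝓝 (∑ n ∈ Finset.range N, φ (rk (vec g n F') (f n)))) :=
        tendsto_finsetSum _ fun n _ => hslice φ n
      rw [map_tst]
      refine h4.congr' ?_
      filter_upwards [hN] with p hp
      rw [map_tst, hp]
    have h5 : Metric.infEDist b (canon 𝕜 (KH 𝕜 H)) = 0 := by
      apply Metric.infEDist_zero_of_mem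
      rw [h3]
      exact ⟨_, rfl⟩
    rw [h5]
    exact zero_le_one
  · -- unbounded lengths
    push Not at hcase
    have hlarge : ∀ N₀, ∀ᶠ p : Finset Γ × ℕ in 𝓕, N₀ ≤ p.2 := by
      intro N₀
      have h1 := Ultrafilter.eventually_not.2 (show ¬ ∀ᶠ p : Finset Γ × ℕ in 𝓕, p.2 < N₀ by simpa using hcase N₀)
      exact h1.mono fun p hp => not_lt.1 hp
    have hcard1 : F'.card ≤ 1 := by
      rw [Finset.card_le_one]
      intro x hx y hy
      by_contra hxy
      have hcne : c x ≠ c y := fun h => hxy (hc h)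
      obtain ⟨i, hi⟩ := Function.ne_iff.1 hcne
      obtain ⟨p, ⟨⟨hp1, hp2⟩, hp3⟩, hp4⟩ := ((((hF'mem x).1 hx).and ((hF'mem y).1 hy)).and hidx |>.and
        (hlarge (i + 1))).exists
      exact hi (hp3.2 x hp1 y hp2 i (by omega))
    have hnorm : ‖b‖ ≤ 1 := by
      apply ContinuousLinearMap.opNorm_le_bound _ zero_le_one
      intro φ
      rw [one_mul]
      obtain ⟨bd, hbd, hbd2⟩ := exists_summable_bound hf hg φ m
      have h1 : Tendsto (fun p : Finset Γ × ℕ => ∑' n, (if n < p.2 then φ (rk (vec g n p.1) (f n)) else 0))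
          𝓕 (𝓝 (∑' n, φ (rk (vec g n F') (f n)))) := by
        apply tendsto_tsum_of_dominated_convergence hbd
        · intro n
          refine (hslice φ n).congr' ?_
          filter_upwards [hlarge (n + 1)] with p hp
          rw [if_pos (by omega)]
        · filter_upwards [hcardev] with p hp n
          by_cases hn : n < p.2
          · rw [if_pos hn]; exact hbd2 n p.1 hp
          · rw [if_neg hn, norm_zero]
            exact (norm_nonneg _).trans (hbd2 n ∅ (by simp))
      have h2 : ∀ p : Finset Γ × ℕ, ∑' n, (if n < p.2 then φ (rk (vec g n p.1) (f n)) else 0) =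
          φ (tst 𝕜 f g p.1 p.2) := by
        intro p
        rw [map_tst, tsum_eq_sum (s := Finset.range p.2)]
        · refine Finset.sum_congr rfl fun n hn => ?_
          rw [if_pos (Finset.mem_range.1 hn)]
        · intro n hn
          rw [if_neg (fun h => hn (Finset.mem_range.2 h))]
      simp_rw [h2] at h1
      have h3 : b φ = ∑' n, φ (rk (vec g n F') (f n)) := tendsto_nhds_unique (hlim φ) h1
      have hF'm : F'.card ≤ m := hsubcard F' (fun x hx => hfinite.mem_toFinset.1 hx)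
      have hsum : Summable (fun n => φ (rk (vec g n F') (f n))) :=
        Summable.of_norm_bounded hbd (fun n => hbd2 n F' hF'm)
      rw [h3]
      refine le_of_tendsto hsum.hasSum.tendsto_sum_nat.norm (Eventually.of_forall fun L => ?_)
      rw [← map_tst]
      refine (φ.le_opNorm _).trans ?_
      calc ‖φ‖ * ‖tst 𝕜 f g F' L‖ ≤ ‖φ‖ * Real.sqrt F'.card := by
            gcongr
            exact norm_tst_le hg hf F' L
        _ ≤ ‖φ‖ * 1 := by
            gcongr
            exact Real.sqrt_le_one.2 (by exact_mod_cast hcard1)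
        _ = ‖φ‖ := mul_one _
    have h0 : (0 : StrongDual 𝕜 (StrongDual 𝕜 (KH 𝕜 H))) ∈ canon 𝕜 (KH 𝕜 H) := ⟨0, map_zero _⟩
    refine (Metric.infEDist_le_edist_of_mem h0).trans ?_
    rw [edist_dist]
    have h1 : dist b 0 = ‖b‖ := by exact dist_zero_right b
    rw [h1, ← ENNReal.ofReal_one]
    exact ENNReal.ofReal_le_ofReal hnorm

omit [CompleteSpace H] in
lemma isBounded_testSet {c : Γ → ℕ → Bool} (hf : Orthonormal 𝕜 f)
    (hg : Orthonormal 𝕜 g) (m : ℕ) : Bornology.IsBounded (testSet 𝕜 c f g m) := by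
  rw [isBounded_iff_forall_norm_le]
  refine ⟨Real.sqrt m, ?_⟩
  rintro _ ⟨p, hp, rfl⟩
  have := norm_tst_le hg hf p.1 p.2
  rwa [hp.1] at this

/-- A Hilbert basis of a nonseparable Hilbert space is uncountable, which provides the orthonormal
families used above. -/
lemma exists_families (hH : ¬ TopologicalSpace.SeparableSpace H) :
    ∃ (Γ : Type) (_ : Uncountable Γ) (c : Γ → ℕ → Bool) (f : ℕ → H) (g : ℕ × Γ → H),
      Function.Injective c ∧ Orthonormal 𝕜 f ∧ Orthonormal 𝕜 g := by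
  obtain ⟨w, b, hb⟩ := exists_hilbertBasis 𝕜 H
  have hw : ¬ w.Countable := by
    intro hcount
    apply hH
    have h1 : TopologicalSpace.IsSeparable (w : Set H) := hcount.isSeparable
    have h2 : TopologicalSpace.IsSeparable ((Submodule.span 𝕜 w : Submodule 𝕜 H) : Set H) := h1.span
    have h3 : TopologicalSpace.IsSeparable ((Submodule.span 𝕜 w).topologicalClosure : Set H) := by
      rw [Submodule.topologicalClosure_coe]
      exact h2.closure
    have h4 := b.dense_span
    rw [hb, Subtype.range_coe] at h4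
    rw [h4] at h3
    exact TopologicalSpace.isSeparable_univ_iff.1 h3
  have hcard : Cardinal.aleph0 < Cardinal.mk w := by
    rw [← not_le, Cardinal.mk_le_aleph0_iff, Set.countable_coe_iff]
    exact hw
  have hcard1 : Cardinal.aleph 1 ≤ Cardinal.mk w := by
    rw [← Cardinal.succ_aleph0]
    exact Order.succ_le_of_lt hcard
  set Γ : Type := (Cardinal.aleph 1).out with hΓ
  have hmk : Cardinal.mk Γ = Cardinal.aleph 1 := Cardinal.mk_out _
  have hΓunc : Uncountable Γ := by
    rw [← Cardinal.aleph0_lt_mk_iff, hmk]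
    exact Cardinal.aleph0_lt_aleph_one
  have hc : Nonempty (Γ ↪ (ℕ → Bool)) := by
    rw [← Cardinal.le_def, hmk]
    have : Cardinal.mk (ℕ → Bool) = Cardinal.continuum := by simp
    rw [this]
    exact Cardinal.aleph_one_le_continuum
  have hj : Nonempty ((ℕ × Γ) ↪ w) := by
    rw [← Cardinal.lift_mk_le']
    have h1 : Cardinal.mk (ℕ × Γ) = Cardinal.aleph 1 := by
      rw [Cardinal.mk_prod, hmk, Cardinal.mk_nat, Cardinal.lift_aleph0, Cardinal.lift_aleph]
      simp
    rw [h1]
    simpa using hcard1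
  obtain ⟨c⟩ := hc
  obtain ⟨j⟩ := hj
  obtain ⟨x₀⟩ : Nonempty Γ := inferInstance
  refine ⟨Γ, hΓunc, c, fun n => b (j (n, x₀)), fun p => b (j p), c.injective, ?_, ?_⟩
  · exact b.orthonormal.comp (fun n => j (n, x₀)) (fun a b hab => (Prod.ext_iff.1 (j.injective hab)).1)
  · exact b.orthonormal.comp j j.injective

/-- If `H` is not separable then for every constant `C` there is a bounded set `A ⊆ K(H)` with
`omega A > C * wk A`. -/
theorem exists_bad_set (hH : ¬ TopologicalSpace.SeparableSpace H) (C : ℝ≥0) :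
    ∃ A : Set (KH 𝕜 H), Bornology.IsBounded A ∧ C * wk 𝕜 A < omega 𝕜 A := by
  obtain ⟨Γ, _, c, f, g, hc, hf, hg⟩ := exists_families (𝕜 := 𝕜) hH
  obtain ⟨m, hm⟩ := exists_nat_gt ((2 * (C : ℝ) + 2) ^ 2)
  refine ⟨testSet 𝕜 c f g m, isBounded_testSet hf hg m, ?_⟩
  have h1 : (C : ℝ) < Real.sqrt m / 2 := by
    have h2 : 2 * (C : ℝ) + 2 ≤ Real.sqrt m := by
      apply Real.le_sqrt_of_sq_le hm.le
    linarith
  calc (C : ℝ≥0∞) * wk 𝕜 (testSet 𝕜 c f g m) ≤ C * 1 := by
        gcongr
        exact wk_testSet_le_one hc hf hg m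
    _ = ENNReal.ofReal C := by simp
    _ < ENNReal.ofReal (Real.sqrt m / 2) := by
        apply (ENNReal.ofReal_lt_ofReal_iff _).2 h1
        exact lt_of_le_of_lt C.2 h1
    _ ≤ omega 𝕜 (testSet 𝕜 c f g m) := le_omega_testSet c hf hg m

end Pool.Agent.Helper41.WNC
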